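import Pool.Agent.Helper76.FX.Gen

/-!
# Classes of polynomial factor complexity
-/

set_option autoImplicit false

open Filter Finset

namespace Pool.Agent.Helper76.FX

/-- `p_A(L) ≤ L ^ (γ + o(1))` -/
def Pw (γ : ℝ) (A : Set ℕ) : Prop :=
  ∀ ε : ℝ, 0 < ε → ∀ᶠ L : ℕ in atTop, (complexity A L : ℝ) ≤ (L : ℝ) ^ (γ + ε)

lemma tendsto_rpow_nat {ε : ℝ} (hε : 0 < ε) :
    Tendsto (fun N : ℕ => (N : ℝ) ^ ε) atTop atTop :=
  (tendsto_rpow_atTop hε).comp tendsto_natCast_atTop_atTop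

theorem pw_one {A : Set ℕ} (hA : Pw 1 A) {R : ℕ} (hr : ∀ n, rep A n ≤ R) {δ : ℝ} (hδ : 0 < δ) :
    ∀ᶠ N : ℕ in atTop, ((A ∩ Set.Icc 1 N).ncard : ℝ) ≤ (N : ℝ) ^ δ := by
  set t := Nat.log 2 R with ht
  set ε : ℝ := δ / (4 * (t + 1)) with hεdef
  have hε : 0 < ε := by positivity
  have hmono : Monotone (fun N : ℕ => (N : ℝ) ^ ε) := by
    intro x y hxy
    exact Real.rpow_le_rpow (Nat.cast_nonneg _) (by exact_mod_cast hxy) hε.le
  have hlog : ∀ᶠ N : ℕ in atTop, Real.log N ≤ (fun N : ℕ => (N : ℝ) ^ ε) N := by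
    have h1 := (isLittleO_log_rpow_atTop hε).bound (show (0 : ℝ) < 1 by norm_num)
    have h2 := tendsto_natCast_atTop_atTop.eventually h1
    filter_upwards [h2, eventually_ge_atTop 3] with N h3 h4
    have h5 := one_le_log h4
    rw [Real.norm_eq_abs, Real.norm_eq_abs, one_mul, abs_of_nonneg (by linarith),
      abs_of_nonneg (by positivity)] at h3
    exact h3
  have hsq : ∀ᶠ N : ℕ in atTop, (fun N : ℕ => (N : ℝ) ^ ε) (N ^ 2) ≤
      (fun N : ℕ => (N : ℝ) ^ ε) N ^ 2 := by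
    refine Eventually.of_forall ?_
    intro N
    simp only
    push_cast
    rw [← Real.rpow_natCast, ← Real.rpow_mul (Nat.cast_nonneg _), ← Real.rpow_natCast _ 2,
      ← Real.rpow_mul (Nat.cast_nonneg _)]
    apply le_of_eq
    congr 1
    ring
  have hC : ∀ᶠ L : ℕ in atTop, (complexity A L : ℝ) ≤ L * (fun N : ℕ => (N : ℝ) ^ ε) L ^ 1 := by
    filter_upwards [hA ε hε, eventually_ge_atTop 1] with L h1 h2
    have h3 : (0 : ℝ) < L := by exact_mod_cast h2
    rw [Real.rpow_add h3, Real.rpow_one] at h1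
    simpa using h1
  have h1 := cl_upper' (φ := fun N : ℕ => (N : ℝ) ^ ε) hmono hlog hsq hC hr
  filter_upwards [h1, eventually_ge_atTop 1] with N h2 h3
  refine h2.trans ?_
  have h4 : (1 : ℝ) ≤ N := by exact_mod_cast h3
  rw [← Real.rpow_natCast, ← Real.rpow_mul (Nat.cast_nonneg _)]
  apply Real.rpow_le_rpow_of_exponent_le h4
  push_cast
  rw [hεdef, ← ht, div_mul_eq_mul_div, div_le_iff₀ (by positivity)]
  nlinarith

/-- the function `h` for powers -/
noncomputable def hp (η : ℝ) (x : ℕ) : ℕ := max 1 ⌈(x : ℝ) ^ η⌉₊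

lemma hp_mono {η : ℝ} (hη : 0 < η) : Monotone (hp η) := by
  intro x y hxy
  unfold hp
  refine max_le_max le_rfl (Nat.ceil_le_ceil ?_)
  exact Real.rpow_le_rpow (Nat.cast_nonneg _) (by exact_mod_cast hxy) hη.le

lemma hp_pos (η : ℝ) (x : ℕ) : 1 ≤ hp η x := le_max_left _ _

lemma le_hp (η : ℝ) (x : ℕ) : (x : ℝ) ^ η ≤ hp η x := by
  unfold hp
  push_cast
  exact (Nat.le_ceil _).trans (le_max_right _ _)

lemma hp_le {η : ℝ} (hη : 0 < η) {x : ℕ} (hx : 1 ≤ x) : (hp η x : ℝ) ≤ 2 * (x : ℝ) ^ η := by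
  have h1 : (1 : ℝ) ≤ (x : ℝ) ^ η := Real.one_le_rpow (by exact_mod_cast hx) hη.le
  unfold hp
  push_cast
  apply max_le (by linarith)
  have := (Nat.ceil_lt_add_one (show 0 ≤ (x : ℝ) ^ η by positivity)).le
  linarith

lemma W_prod (h : ℕ → ℕ) (i k : ℕ) :
    W h (i + k) = 2 ^ k * (∏ c ∈ range k, h (W h (i + c))) * W h i := by
  induction k with
  | zero => simp
  | succ k ih =>
    show 2 * h (W h (i + k)) * W h (i + k) = _
    rw [Finset.prod_range_succ]
    conv_lhs => rw [show 2 * h (W h (i + k)) * W h (i + k) = (2 * h (W h (i + k))) * W h (i + k)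
      from rfl]
    nth_rewrite 2 [ih]
    ring

lemma W_grow {η : ℝ} (hη : 0 < η) (i r : ℕ) :
    (W (hp η) i : ℝ) ^ ((1 + η) ^ r) ≤ W (hp η) (i + r) := by
  have hWpos : ∀ j, 1 ≤ W (hp η) j := fun j => Nat.one_le_two_pow.trans (W_ge (hp_pos η) j)
  have hW0 : ∀ j, (0 : ℝ) < W (hp η) j := fun j => by exact_mod_cast hWpos j
  induction r with
  | zero => simp
  | succ r ih =>
    rw [pow_succ, Real.rpow_mul (hW0 i).le]
    have h1 : ((W (hp η) i : ℝ) ^ ((1 + η) ^ r)) ^ (1 + η) ≤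
        (W (hp η) (i + r) : ℝ) ^ (1 + η) :=
      Real.rpow_le_rpow (by positivity) ih (by linarith)
    refine h1.trans ?_
    rw [Real.rpow_add (hW0 _), Real.rpow_one]
    show (W (hp η) (i + r) : ℝ) * (W (hp η) (i + r) : ℝ) ^ η ≤
      ((2 * hp η (W (hp η) (i + r)) * W (hp η) (i + r) : ℕ) : ℝ)
    push_cast
    have h2 := le_hp η (W (hp η) (i + r))
    have h3 := hW0 (i + r)
    have h4 : (0 : ℝ) ≤ hp η (W (hp η) (i + r)) := Nat.cast_nonneg _
    nlinarith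

theorem pw_lower {γ β : ℝ} (hγ : 1 < γ) (hβ : 0 < β) (hβ2 : β < 1 / 2) :
    ∃ A : Set ℕ, (∀ᶠ L : ℕ in atTop, (complexity A L : ℝ) ≤ (L : ℝ) ^ γ) ∧
      (∃ R : ℕ, ∀ n, rep A n ≤ R) ∧
      ∀ᶠ N : ℕ in atTop, (N : ℝ) ^ (1 / 2 - β) ≤ ((A ∩ Set.Icc 1 N).ncard : ℝ) := by
  set η : ℝ := min (β / 2) ((γ - 1) / 2) with hηdef
  have hη : 0 < η := lt_min (by linarith) (by linarith)
  have hη1 : η ≤ β / 2 := min_le_left _ _
  have hη2 : η ≤ (γ - 1) / 2 := min_le_right _ _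
  obtain ⟨k0, hk0⟩ := pow_unbounded_of_one_lt (1 / η) (show 1 < 1 + η by linarith)
  set k := k0 + 1 with hk
  have hk1 : 1 ≤ η * (1 + η) ^ k := by
    have h1 : (1 + η) ^ k0 ≤ (1 + η) ^ k := pow_le_pow_right₀ (by linarith) (by omega)
    rw [div_lt_iff₀ hη] at hk0
    nlinarith
  obtain ⟨A, hA1, hA2, hA3⟩ := construct (hp_mono hη) (hp_pos η) (k := k) (by omega)
  have hWpos : ∀ j, 1 ≤ W (hp η) j := fun j => Nat.one_le_two_pow.trans (W_ge (hp_pos η) j)
  refine ⟨A, ?_, ⟨2 ^ k, hA1⟩, ?_⟩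
  · have hlim : 0 < γ - 1 - η := by linarith
    filter_upwards [(tendsto_rpow_nat hlim).eventually_ge_atTop (4 ^ (k + 1) * 4),
      eventually_ge_atTop 1] with L h1 h2
    have hL : (0 : ℝ) < L := by exact_mod_cast h2
    have h3 : (complexity A L : ℝ) ≤ 4 ^ (k + 1) * (2 * hp η L * L) := by
      exact_mod_cast hA2 L h2
    calc (complexity A L : ℝ) ≤ 4 ^ (k + 1) * (2 * hp η L * L) := h3
      _ ≤ 4 ^ (k + 1) * (2 * (2 * (L : ℝ) ^ η) * L) := by
          gcongr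
          exact hp_le hη h2
      _ = (4 ^ (k + 1) * 4) * ((L : ℝ) ^ η * (L : ℝ) ^ (1 : ℝ)) := by
          rw [Real.rpow_one]
          ring
      _ ≤ (L : ℝ) ^ (γ - 1 - η) * ((L : ℝ) ^ η * (L : ℝ) ^ (1 : ℝ)) := by gcongr
      _ = (L : ℝ) ^ γ := by
          rw [← Real.rpow_add hL, ← Real.rpow_add hL]
          congr 1
          ring
  · filter_upwards [(tendsto_rpow_nat (show 0 < β / 2 by linarith)).eventually_ge_atTop
      (4 * 8 ^ k), eventually_ge_atTop (W (hp η) k)] with N h1 h2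
    obtain ⟨i', hi1, hi2⟩ := exists_index (hp_pos η) (x := N) ((hWpos _).trans h2)
    have hi3 : k ≤ i' := by
      by_contra hcon
      have := W_mono (hp_pos η) (i := i' + 1) (j := k) (by omega)
      omega
    obtain ⟨i, rfl⟩ : ∃ i, i' = i + k := ⟨i' - k, by omega⟩
    have hN1 : 1 ≤ N := (hWpos _).trans h2
    have hNR : (1 : ℝ) ≤ N := by exact_mod_cast hN1
    set n := (A ∩ Set.Iio (W (hp η) (i + k))).ncard with hn
    set M : ℝ := ((W (hp η) (i + k) : ℕ) : ℝ) with hM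
    have hM1 : 1 ≤ M := by rw [hM]; exact_mod_cast hWpos (i + k)
    have hM0 : 0 < M := by linarith
    set z : ℝ := ((W (hp η) i : ℕ) : ℝ) with hz
    have hz1 : 1 ≤ z := by rw [hz]; exact_mod_cast hWpos i
    -- `z ≤ M ^ η`
    have h3 : z ≤ M ^ η := by
      have h4 := W_grow hη i k
      rw [← hz, ← hM] at h4
      calc z = z ^ (1 : ℝ) := (Real.rpow_one _).symm
        _ ≤ z ^ ((1 + η) ^ k * η) := by
            apply Real.rpow_le_rpow_of_exponent_le hz1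
            linarith
        _ = (z ^ ((1 + η) ^ k)) ^ η := Real.rpow_mul (by linarith) _ _
        _ ≤ M ^ η := Real.rpow_le_rpow (by positivity) h4 hη.le
    -- `M ≤ 64 ^ k n ^ 2 z`
    have h4 : M ≤ 64 ^ k * (n : ℝ) ^ 2 * z := by
      have h5 := W_prod (hp η) i k
      have h6 := hA3 i
      have h7 : W (hp η) (i + k) ≤ 64 ^ k * n ^ 2 * W (hp η) i := by
        rw [h5]
        apply Nat.mul_le_mul_right
        calc 2 ^ k * ∏ c ∈ range k, hp η (W (hp η) (i + c)) ≤ 2 ^ k * (32 ^ k * n ^ 2) :=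
              Nat.mul_le_mul_left _ h6
          _ = 64 ^ k * n ^ 2 := by
              rw [show (64 : ℕ) = 2 * 32 by norm_num, mul_pow]
              ring
      rw [hM, hz]
      exact_mod_cast h7
    have h5 : M ^ (1 - η) ≤ 64 ^ k * (n : ℝ) ^ 2 := by
      have h6 : M ^ (1 - η) * M ^ η ≤ 64 ^ k * (n : ℝ) ^ 2 * M ^ η := by
        rw [← Real.rpow_add hM0, sub_add_cancel, Real.rpow_one]
        exact h4.trans (mul_le_mul_of_nonneg_left h3 (by positivity))
      exact le_of_mul_le_mul_right h6 (by positivity)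
    -- `N ≤ 4 M ^ (1 + η)`
    have h6 : (N : ℝ) ≤ 4 * M ^ (1 + η) := by
      have h7 : (N : ℝ) ≤ ((2 * hp η (W (hp η) (i + k)) * W (hp η) (i + k) : ℕ) : ℝ) := by
        exact_mod_cast hi2.le
      push_cast at h7
      rw [← hM] at h7
      have h8 := hp_le hη (hWpos (i + k))
      rw [← hM] at h8
      rw [Real.rpow_add hM0, Real.rpow_one]
      nlinarith
    have h7 : (N : ℝ) ^ (1 - 2 * η) ≤ 4 * M ^ (1 - η) := by
      have hpos : 0 ≤ 1 - 2 * η := by linarith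
      calc (N : ℝ) ^ (1 - 2 * η) ≤ (4 * M ^ (1 + η)) ^ (1 - 2 * η) :=
            Real.rpow_le_rpow (by positivity) h6 hpos
        _ = 4 ^ (1 - 2 * η) * M ^ ((1 + η) * (1 - 2 * η)) := by
            rw [Real.mul_rpow (by norm_num) (by positivity), ← Real.rpow_mul hM0.le]
        _ ≤ 4 ^ (1 : ℝ) * M ^ (1 - η) := by
            gcongr
            · norm_num
            · linarith
            · nlinarith
        _ = 4 * M ^ (1 - η) := by rw [Real.rpow_one]
    have h8 : (N : ℝ) ^ ((1 - β) / 2) ≤ 2 * 8 ^ k * n := by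
      apply le_of_sq_le_sq _ (by positivity)
      calc ((N : ℝ) ^ ((1 - β) / 2)) ^ 2 = (N : ℝ) ^ (1 - β) := by
            rw [← Real.rpow_natCast, ← Real.rpow_mul (by linarith)]
            congr 1
            push_cast
            ring
        _ ≤ (N : ℝ) ^ (1 - 2 * η) := Real.rpow_le_rpow_of_exponent_le hNR (by linarith)
        _ ≤ 4 * (64 ^ k * (n : ℝ) ^ 2) := h7.trans (by linarith)
        _ = (2 * 8 ^ k * n) ^ 2 := by
            rw [mul_pow, mul_pow, ← pow_mul, mul_comm k 2, pow_mul]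
            norm_num
            ring
    have h9 : n ≤ (A ∩ Set.Icc 1 N).ncard + 1 := count_Icc (by omega)
    have h10 : (n : ℝ) ≤ ((A ∩ Set.Icc 1 N).ncard : ℝ) + 1 := by exact_mod_cast h9
    have h11 : 2 * (N : ℝ) ^ (1 / 2 - β) ≤ n := by
      have h12 : (N : ℝ) ^ ((1 - β) / 2) = (N : ℝ) ^ (1 / 2 - β) * (N : ℝ) ^ (β / 2) := by
        rw [← Real.rpow_add (by linarith)]
        congr 1
        ring
      rw [h12] at h8
      have h13 : (N : ℝ) ^ (1 / 2 - β) * (4 * 8 ^ k) ≤ 2 * 8 ^ k * n :=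
        (mul_le_mul_of_nonneg_left h1 (by positivity)).trans h8
      have h14 : (0 : ℝ) < 8 ^ k := by positivity
      have h15 : (2 * 8 ^ k) * (2 * (N : ℝ) ^ (1 / 2 - β)) ≤ (2 * 8 ^ k) * (n : ℝ) := by
        linarith
      exact le_of_mul_le_mul_left h15 (by positivity)
    have h12 : 1 ≤ (N : ℝ) ^ (1 / 2 - β) := Real.one_le_rpow hNR (by linarith)
    linarith

theorem pw_thr {γ β : ℝ} (hγ : 1 ≤ γ) (hβ : 0 < β) (hβ2 : β < 1 / 2) :
    ForcesIn (Pw γ) (fun N => (N : ℝ) ^ β) ↔ γ = 1 := by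
  have hdiv : ∀ N : ℕ, 1 ≤ N → Real.sqrt N / (N : ℝ) ^ β = (N : ℝ) ^ (1 / 2 - β) := by
    intro N hN
    have : (0 : ℝ) < N := by exact_mod_cast hN
    rw [Real.sqrt_eq_rpow, ← Real.rpow_sub this]
  constructor
  · intro hF
    by_contra hne
    obtain ⟨A, hA1, ⟨R, hR⟩, hA3⟩ := pw_lower (lt_of_le_of_ne hγ (Ne.symm hne)) hβ hβ2
    obtain ⟨n, hn⟩ := hF A (by
      intro ε hε
      filter_upwards [hA1, eventually_ge_atTop 1] with L h1 h2
      refine h1.trans (Real.rpow_le_rpow_of_exponent_le (by exact_mod_cast h2) (by linarith)))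
      ⟨1, one_pos, by
        filter_upwards [hA3, eventually_ge_atTop 1] with N h1 h2
        rw [hdiv N h2, one_mul]
        exact h1⟩ R
    have := hR n
    omega
  · rintro rfl A hA hD K
    by_contra hcon
    push Not at hcon
    obtain ⟨C, hC, hD⟩ := hD
    have hδ : 0 < (1 / 2 - β) / 2 := by linarith
    have h1 := pw_one hA hcon hδ
    obtain ⟨N, ⟨h2, h3⟩, h4, h5⟩ := ((hD.and h1).and
      (((tendsto_rpow_nat hδ).eventually_gt_atTop C).and (eventually_ge_atTop 1))).exists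
    rw [hdiv N h5] at h2
    have hN0 : (0 : ℝ) < N := by exact_mod_cast h5
    have h6 : (N : ℝ) ^ (1 / 2 - β) =
        (N : ℝ) ^ ((1 / 2 - β) / 2) * (N : ℝ) ^ ((1 / 2 - β) / 2) := by
      rw [← Real.rpow_add hN0]
      congr 1
      ring
    rw [h6] at h2
    have h7 : 0 < (N : ℝ) ^ ((1 / 2 - β) / 2) := by positivity
    have h8 : C * ((A ∩ Set.Icc 1 N).ncard : ℝ) ≤ C * (N : ℝ) ^ ((1 / 2 - β) / 2) := by
      gcongr
    have h9 : C * (N : ℝ) ^ ((1 / 2 - β) / 2) <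
        (N : ℝ) ^ ((1 / 2 - β) / 2) * (N : ℝ) ^ ((1 / 2 - β) / 2) := by
      gcongr
    linarith

end Pool.Agent.Helper76.FX
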