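import Pool.Agent.Helper76.FX.Ineq

/-!
# Sets given by their digits in a mixed radix system
-/

set_option autoImplicit false

open Finset

namespace Pool.Agent.Helper76.FX

/-- the weights of the radix system -/
def wt (q : ℕ → ℕ) (j : ℕ) : ℕ := ∏ i ∈ range j, q i

/-- the digits -/
def dig (q : ℕ → ℕ) (x j : ℕ) : ℕ := x / wt q j % q j

lemma wt_zero (q : ℕ → ℕ) : wt q 0 = 1 := by simp [wt]

lemma wt_succ (q : ℕ → ℕ) (j : ℕ) : wt q (j + 1) = wt q j * q j := by
  simp [wt, prod_range_succ]

section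
variable {q : ℕ → ℕ} (hq : ∀ j, 2 ≤ q j)
include hq

lemma wt_ge (j : ℕ) : 2 ^ j ≤ wt q j := by
  induction j with
  | zero => simp [wt_zero]
  | succ j ih =>
    rw [wt_succ, pow_succ]
    exact Nat.mul_le_mul ih (hq j)

lemma wt_pos (j : ℕ) : 0 < wt q j := lt_of_lt_of_le (by positivity) (wt_ge hq j)

lemma lt_wt (x : ℕ) : x < wt q x := lt_of_lt_of_le Nat.lt_two_pow_self (wt_ge hq x)

lemma wt_mono {i j : ℕ} (h : i ≤ j) : wt q i ≤ wt q j := by
  induction j with
  | zero => rw [show i = 0 by omega]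
  | succ j ih =>
    rcases Nat.lt_or_ge j i with h1 | h1
    · rw [show i = j + 1 by omega]
    · refine (ih h1).trans ?_
      rw [wt_succ]
      exact Nat.le_mul_of_pos_right _ (by have := hq j; omega)

lemma dig_lt (x j : ℕ) : dig q x j < q j := Nat.mod_lt _ (by have := hq j; omega)

omit hq in
lemma mod_succ (x j : ℕ) : x % wt q (j + 1) = x % wt q j + wt q j * dig q x j := by
  rw [wt_succ, Nat.mod_mul]
  rfl

omit hq in
lemma tame_mod {x : ℕ} (hx : ∀ j, 2 * dig q x j < q j) (j : ℕ) :
    2 * (x % wt q j) < wt q j := by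
  induction j with
  | zero => simp [wt_zero, Nat.mod_one]
  | succ j ih =>
    rw [mod_succ, wt_succ]
    have h1 := hx j
    have h2 : wt q j * (2 * dig q x j + 1) ≤ wt q j * q j := Nat.mul_le_mul_left _ h1
    have h3 : wt q j * (2 * dig q x j + 1) = 2 * (wt q j * dig q x j) + wt q j := by ring
    omega

omit hq in
lemma dig_add {x y : ℕ} (hx : ∀ j, 2 * dig q x j < q j) (hy : ∀ j, 2 * dig q y j < q j)
    (j : ℕ) : dig q (x + y) j = dig q x j + dig q y j := by
  have h1 := tame_mod hx j
  have h2 := tame_mod hy j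
  have h3 := hx j
  have h4 := hy j
  have h5 : (x + y) / wt q j = x / wt q j + y / wt q j :=
    Nat.add_div_eq_of_add_mod_lt (by omega)
  unfold dig at *
  rw [h5, Nat.add_mod]
  exact Nat.mod_eq_of_lt (by omega)

lemma dig_ext {x y : ℕ} (h : ∀ j, dig q x j = dig q y j) : x = y := by
  have h1 : ∀ j, x % wt q j = y % wt q j := by
    intro j
    induction j with
    | zero => simp [wt_zero, Nat.mod_one]
    | succ j ih => rw [mod_succ, mod_succ, ih, h j]
  have h2 := h1 (x + y)
  have h3 : x + y < wt q (x + y) := lt_wt hq (x + y)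
  rwa [Nat.mod_eq_of_lt (by omega), Nat.mod_eq_of_lt (by omega)] at h2

/-- the number with the digits `f j`, `j < J` -/
lemma exists_val (f : ℕ → ℕ) (hf : ∀ j, f j < q j) (J : ℕ) :
    ∃ x < wt q J, ∀ j, dig q x j = if j < J then f j else 0 := by
  induction J with
  | zero =>
    refine ⟨0, by simp [wt_zero], ?_⟩
    intro j
    simp [dig]
  | succ J ih =>
    obtain ⟨x, hx, hd⟩ := ih
    have hpos := wt_pos hq
    refine ⟨x + wt q J * f J, ?_, ?_⟩
    · rw [wt_succ]
      calc x + wt q J * f J < wt q J + wt q J * f J := by omega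
        _ = wt q J * (f J + 1) := by ring
        _ ≤ wt q J * q J := Nat.mul_le_mul_left _ (hf J)
    · intro j
      rcases lt_trichotomy j J with h | h | h
      · rw [if_pos (by omega)]
        have h1 := hd j
        rw [if_pos h] at h1
        rw [← h1]
        unfold dig
        obtain ⟨c, hc⟩ : wt q (j + 1) ∣ wt q J := by
          have : range (j + 1) ⊆ range J := by
            intro i hi
            rw [mem_range] at *
            omega
          exact prod_dvd_prod_of_subset _ _ _ this
        rw [hc, wt_succ]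
        rw [show x + wt q j * q j * c * f J = x + wt q j * (q j * (c * f J)) by ring]
        rw [Nat.add_mul_div_left _ _ (hpos j), Nat.add_mul_mod_self_left]
      · subst h
        rw [if_pos (by omega)]
        unfold dig
        rw [Nat.add_mul_div_left _ _ (hpos j), Nat.div_eq_of_lt hx, zero_add]
        exact Nat.mod_eq_of_lt (hf j)
      · rw [if_neg (by omega)]
        unfold dig
        rw [Nat.div_eq_of_lt, Nat.zero_mod]
        have h1 : wt q (J + 1) ≤ wt q j := wt_mono hq h
        refine lt_of_lt_of_le ?_ h1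
        rw [wt_succ]
        calc x + wt q J * f J < wt q J + wt q J * f J := by omega
          _ = wt q J * (f J + 1) := by ring
          _ ≤ wt q J * q J := Nat.mul_le_mul_left _ (hf J)

lemma dig_block {v x l : ℕ} (hx : x < wt q l) (j : ℕ) :
    dig q (v * wt q l + x) j = if j < l then dig q x j else dig q (v * wt q l) j := by
  have hpos := wt_pos hq
  split_ifs with h
  · unfold dig
    obtain ⟨c, hc⟩ : wt q (j + 1) ∣ wt q l := by
      have : range (j + 1) ⊆ range l := by
        intro i hi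
        rw [mem_range] at *
        omega
      exact prod_dvd_prod_of_subset _ _ _ this
    rw [hc, wt_succ]
    rw [show v * (wt q j * q j * c) + x = x + wt q j * (q j * (c * v)) by ring]
    rw [Nat.add_mul_div_left _ _ (hpos j), Nat.add_mul_mod_self_left]
  · unfold dig
    obtain ⟨c, hc⟩ : wt q l ∣ wt q j := by
      have : range l ⊆ range j := by
        intro i hi
        rw [mem_range] at *
        omega
      exact prod_dvd_prod_of_subset _ _ _ this
    congr 1
    rw [hc, ← Nat.div_div_eq_div_mul, ← Nat.div_div_eq_div_mul]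
    congr 1
    rw [mul_comm v, Nat.mul_add_div (hpos l), Nat.div_eq_of_lt hx, add_zero,
      Nat.mul_div_cancel_left _ (hpos l)]

lemma dig_mul_lt {v l j : ℕ} (h : j < l) : dig q (v * wt q l) j = 0 := by
  have := dig_block hq (v := v) (x := 0) (wt_pos hq l) j
  rw [if_pos h, add_zero] at this
  rw [this]
  simp [dig]

end

/-- the numbers with digits in the sets `S j`, and at most one nonzero digit in each residue
class of places modulo `k` -/
def dset (q : ℕ → ℕ) (S : ℕ → Finset ℕ) (k : ℕ) : Set ℕ :=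
  {x | (∀ j, dig q x j ∈ S j) ∧
    ∀ i j, dig q x i ≠ 0 → dig q x j ≠ 0 → i % k = j % k → i = j}

/-- the digit sets: Sidon sets of small digits -/
structure Good (q : ℕ → ℕ) (S : ℕ → Finset ℕ) : Prop where
  two : ∀ j, 2 ≤ q j
  zero : ∀ j, 0 ∈ S j
  small : ∀ j, ∀ s ∈ S j, 2 * s < q j
  sidon : ∀ j, ∀ a ∈ S j, ∀ b ∈ S j, ∀ c ∈ S j, ∀ d ∈ S j, a + b = c + d →
    (a = c ∧ b = d) ∨ (a = d ∧ b = c)

lemma rep_dset {q : ℕ → ℕ} {S : ℕ → Finset ℕ} (h : Good q S) {k : ℕ} (hk : 1 ≤ k) (n : ℕ) :
    rep (dset q S k) n ≤ 2 ^ k := by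
  classical
  rcases Set.eq_empty_or_nonempty
    {p : ℕ × ℕ | p.1 ∈ dset q S k ∧ p.2 ∈ dset q S k ∧ p.1 + p.2 = n} with hE | ⟨⟨a0, b0⟩, h0⟩
  · unfold rep
    rw [hE, Set.ncard_empty]
    exact Nat.zero_le _
  obtain ⟨ha0, hb0, hn0⟩ := h0
  simp only at ha0 hb0 hn0
  -- the code of a representation
  set code : ℕ × ℕ → Finset ℕ := fun p => (range k).filter
    (fun c => ∀ j, j % k = c → dig q p.1 j = dig q a0 j) with hcode
  have hcodemem : ∀ p c, c ∈ code p ↔ c < k ∧ ∀ j, j % k = c → dig q p.1 j = dig q a0 j := by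
    intro p c
    simp [hcode]
  have key : ∀ p ∈ {p : ℕ × ℕ | p.1 ∈ dset q S k ∧ p.2 ∈ dset q S k ∧ p.1 + p.2 = n},
      ∀ c < k, c ∉ code p → ∀ j, j % k = c → dig q p.1 j = dig q b0 j := by
    rintro ⟨a, b⟩ ⟨ha, hb, hn⟩ c hc hcc j2 hj2
    simp only at ha hb hn ⊢
    have hsum : ∀ j, dig q a j + dig q b j = dig q a0 j + dig q b0 j := by
      intro j
      rw [← dig_add (fun j => h.small j _ (ha.1 j)) (fun j => h.small j _ (hb.1 j)),
        ← dig_add (fun j => h.small j _ (ha0.1 j)) (fun j => h.small j _ (hb0.1 j)), hn, hn0]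
    have hsid : ∀ j, (dig q a j = dig q a0 j ∧ dig q b j = dig q b0 j) ∨
        (dig q a j = dig q b0 j ∧ dig q b j = dig q a0 j) := fun j =>
      h.sidon j _ (ha.1 j) _ (hb.1 j) _ (ha0.1 j) _ (hb0.1 j) (hsum j)
    rw [hcodemem] at hcc
    push Not at hcc
    obtain ⟨j1, hj1, hne1⟩ := hcc hc
    simp only at hne1
    by_contra hne2
    have hjj : j1 ≠ j2 := by
      rintro rfl
      rcases hsid j1 with h1 | h1
      · exact hne1 h1.1
      · exact hne2 h1.1
    have h1 := hsid j1
    have h2 := hsid j2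
    have e1 : dig q a j1 = dig q b0 j1 ∧ dig q b j1 = dig q a0 j1 := by
      rcases h1 with h1 | h1
      · exact absurd h1.1 hne1
      · exact h1
    have e2 : dig q a j2 = dig q a0 j2 ∧ dig q b j2 = dig q b0 j2 := by
      rcases h2 with h2 | h2
      · exact h2
      · exact absurd h2.1 hne2
    have hmod : j1 % k = j2 % k := by rw [hj1, hj2]
    by_cases hz : dig q a j1 = 0
    · -- then `a0` has a nonzero digit at `j1`
      have hz2 : dig q a0 j1 ≠ 0 := fun h3 => hne1 (by rw [hz, h3])
      have h4 : dig q a0 j2 = 0 := by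
        by_contra h5
        exact hjj (ha0.2 j1 j2 hz2 h5 hmod)
      have h6 : dig q b j2 = 0 := by
        by_contra h5
        exact hjj (hb.2 j1 j2 (by rw [e1.2]; exact hz2) h5 hmod)
      exact hne2 (by rw [e2.1, h4, ← e2.2, h6])
    · have h4 : dig q a j2 = 0 := by
        by_contra h5
        exact hjj (ha.2 j1 j2 hz h5 hmod)
      have h6 : dig q b0 j2 = 0 := by
        by_contra h5
        exact hjj (hb0.2 j1 j2 (by rw [← e1.1]; exact hz) h5 hmod)
      exact hne2 (by rw [h4, h6])
  have hinj : Set.InjOn code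
      {p : ℕ × ℕ | p.1 ∈ dset q S k ∧ p.2 ∈ dset q S k ∧ p.1 + p.2 = n} := by
    intro p hp p' hp' hpp
    have h1 : p.1 = p'.1 := by
      apply dig_ext h.two
      intro j
      have hj : j % k < k := Nat.mod_lt _ (by omega)
      by_cases hc : j % k ∈ code p
      · have hc' : j % k ∈ code p' := hpp ▸ hc
        rw [((hcodemem _ _).1 hc).2 j rfl, ((hcodemem _ _).1 hc').2 j rfl]
      · have hc' : j % k ∉ code p' := hpp ▸ hc
        rw [key p hp _ hj hc j rfl, key p' hp' _ hj hc' j rfl]
    ext
    · exact h1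
    · have h2 := hp.2.2
      have h3 := hp'.2.2
      omega
  unfold rep
  have h1 := Set.ncard_le_ncard_of_injOn code (t := ((range k).powerset : Set (Finset ℕ)))
    (fun p _ => by
      rw [mem_coe, mem_powerset]
      exact filter_subset _ _) hinj (Finset.finite_toSet _)
  rwa [Set.ncard_coe_finset, card_powerset, card_range] at h1

lemma ncard_range_le {α K : Type*} (f : ℕ → α) (key : ℕ → K) (T : Finset K)
    (h1 : ∀ s, key s ∈ T) (h2 : ∀ s s', key s = key s' → f s = f s') :
    (Set.range f).ncard ≤ T.card := by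
  classical
  have hch : ∀ y ∈ Set.range f, ∃ s, f s = y := fun y hy => hy
  choose! g hg using hch
  rw [← Set.ncard_coe_finset T]
  refine Set.ncard_le_ncard_of_injOn (fun y => key (g y)) (fun y _ => h1 _) ?_
    (Finset.finite_toSet _)
  intro y hy z hz hyz
  rw [← hg y hy, ← hg z hz]
  exact h2 _ _ hyz

open Classical in
/-- the classes used by the high digits -/
noncomputable def cls (q : ℕ → ℕ) (k l v : ℕ) : Finset ℕ :=
  (range k).filter (fun c => ∃ j, l ≤ j ∧ j % k = c ∧ dig q (v * wt q l) j ≠ 0)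

/-- the high digits are admissible -/
def hi (q : ℕ → ℕ) (S : ℕ → Finset ℕ) (k l v : ℕ) : Prop :=
  (∀ j, l ≤ j → dig q (v * wt q l) j ∈ S j) ∧
    ∀ i j, l ≤ i → l ≤ j → dig q (v * wt q l) i ≠ 0 → dig q (v * wt q l) j ≠ 0 →
      i % k = j % k → i = j

lemma mem_block {q : ℕ → ℕ} {S : ℕ → Finset ℕ} (h : Good q S) {k : ℕ} (hk : 1 ≤ k)
    {l v x : ℕ} (hx : x < wt q l) :
    v * wt q l + x ∈ dset q S k ↔ hi q S k l v ∧ ((∀ j < l, dig q x j ∈ S j) ∧
      ∀ i < l, ∀ j < l, dig q x i ≠ 0 → dig q x j ≠ 0 → i % k = j % k → i = j) ∧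
      ∀ i < l, dig q x i ≠ 0 → i % k ∉ cls q k l v := by
  classical
  have hd := dig_block h.two (v := v) hx
  have hlo : ∀ j, j < l → dig q (v * wt q l + x) j = dig q x j := by
    intro j hj
    rw [hd, if_pos hj]
  have hhi : ∀ j, l ≤ j → dig q (v * wt q l + x) j = dig q (v * wt q l) j := by
    intro j hj
    rw [hd, if_neg (by omega)]
  constructor
  · rintro ⟨h1, h2⟩
    refine ⟨⟨?_, ?_⟩, ⟨?_, ?_⟩, ?_⟩
    · intro j hj
      rw [← hhi j hj]
      exact h1 j
    · intro i j hi hj h3 h4 h5
      rw [← hhi i hi] at h3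
      rw [← hhi j hj] at h4
      exact h2 i j h3 h4 h5
    · intro j hj
      rw [← hlo j hj]
      exact h1 j
    · intro i hi j hj h3 h4 h5
      rw [← hlo i hi] at h3
      rw [← hlo j hj] at h4
      exact h2 i j h3 h4 h5
    · intro i hi h3 h4
      simp only [cls, mem_filter, mem_range] at h4
      obtain ⟨_, j, hj, h5, h6⟩ := h4
      rw [← hlo i hi] at h3
      rw [← hhi j hj] at h6
      have := h2 i j h3 h6 h5.symm
      omega
  · rintro ⟨⟨h1, h2⟩, ⟨h3, h4⟩, h5⟩
    refine ⟨?_, ?_⟩
    · intro j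
      rcases Nat.lt_or_ge j l with hj | hj
      · rw [hlo j hj]; exact h3 j hj
      · rw [hhi j hj]; exact h1 j hj
    · intro i j h6 h7 h8
      rcases Nat.lt_or_ge i l with hi | hi <;> rcases Nat.lt_or_ge j l with hj | hj
      · rw [hlo i hi] at h6
        rw [hlo j hj] at h7
        exact h4 i hi j hj h6 h7 h8
      · rw [hlo i hi] at h6
        rw [hhi j hj] at h7
        exfalso
        apply h5 i hi h6
        simp only [cls, mem_filter, mem_range]
        exact ⟨Nat.mod_lt _ (by omega), j, hj, h8.symm, h7⟩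
      · rw [hhi i hi] at h6
        rw [hlo j hj] at h7
        exfalso
        apply h5 j hj h7
        simp only [cls, mem_filter, mem_range]
        exact ⟨Nat.mod_lt _ (by omega), i, hi, h8, h6⟩
      · rw [hhi i hi] at h6
        rw [hhi j hj] at h7
        exact h2 i j hi hj h6 h7 h8

lemma complexity_dset {q : ℕ → ℕ} {S : ℕ → Finset ℕ} (h : Good q S) {k : ℕ} (hk : 1 ≤ k)
    {l L : ℕ} (hL : L ≤ wt q l) :
    complexity (dset q S k) L ≤ 4 ^ (k + 1) * wt q l := by
  classical
  set M := wt q l with hM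
  have hMpos : 0 < M := wt_pos h.two l
  set code : ℕ → Bool × Finset ℕ := fun v => (decide (hi q S k l v), cls q k l v) with hcode
  set C : Finset (Bool × Finset ℕ) := univ ×ˢ (range k).powerset with hC
  have hcodeC : ∀ v, code v ∈ C := by
    intro v
    rw [hC, mem_product]
    refine ⟨mem_univ _, ?_⟩
    rw [mem_powerset]
    exact filter_subset _ _
  have hcodemem : ∀ v v' x, x < M → code v = code v' →
      (v * M + x ∈ dset q S k ↔ v' * M + x ∈ dset q S k) := by
    intro v v' x hx hvv
    rw [hcode] at hvv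
    simp only [Prod.mk.injEq, decide_eq_decide] at hvv
    rw [mem_block h hk hx, mem_block h hk hx, hvv.1, hvv.2]
  unfold complexity
  have h1 := ncard_range_le (fun s : ℕ => {i : Fin L | s + (i : ℕ) ∈ dset q S k})
    (fun s => (code (s / M), code (s / M + 1), s % M)) (C ×ˢ C ×ˢ range M)
    (by
      intro s
      exact mem_product.2 ⟨hcodeC _, mem_product.2 ⟨hcodeC _, mem_range.2 (Nat.mod_lt _ hMpos)⟩⟩)
    (by
      intro s s' hss
      simp only [Prod.mk.injEq] at hss
      obtain ⟨e1, e2, e3⟩ := hss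
      ext i
      change s + (i : ℕ) ∈ dset q S k ↔ s' + (i : ℕ) ∈ dset q S k
      have hi := i.2
      have d1 := Nat.div_add_mod s M
      have d2 := Nat.div_add_mod s' M
      have m1 := Nat.mod_lt s hMpos
      rcases Nat.lt_or_ge (s % M + i) M with hlt | hge
      · have f1 : s + (i : ℕ) = s / M * M + (s % M + i) := by rw [mul_comm]; omega
        have f2 : s' + (i : ℕ) = s' / M * M + (s % M + i) := by rw [e3, mul_comm]; omega
        rw [f1, f2]
        exact hcodemem _ _ _ hlt e1
      · have f1 : s + (i : ℕ) = (s / M + 1) * M + (s % M + i - M) := by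
          rw [Nat.add_mul, one_mul, mul_comm]; omega
        have f2 : s' + (i : ℕ) = (s' / M + 1) * M + (s % M + i - M) := by
          rw [Nat.add_mul, one_mul, mul_comm, e3]; omega
        rw [f1, f2]
        exact hcodemem _ _ _ (by omega) e2)
  have hCc : C.card = 2 * 2 ^ k := by
    rw [hC, card_product, card_powerset, card_range, Finset.card_univ, Fintype.card_bool]
  have hC2 : (C ×ˢ C ×ˢ range M).card = C.card * (C.card * M) := by
    rw [card_product C, card_product C, card_range]
  refine h1.trans (le_of_eq ?_)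
  rw [hC2, hCc, show (4 : ℕ) = 2 * 2 by norm_num, mul_pow, pow_succ]
  ring

/-- lower bound for the number of elements from a family of digit functions -/
lemma count_family {q : ℕ → ℕ} {S : ℕ → Finset ℕ} (h : Good q S) {k : ℕ} {J : ℕ}
    {ι : Type*} (T : Finset ι) (f : ι → ℕ → ℕ)
    (h1 : ∀ i ∈ T, ∀ j, f i j ∈ S j) (h2 : ∀ i ∈ T, ∀ j, J ≤ j → f i j = 0)
    (h3 : ∀ i ∈ T, ∀ a b, f i a ≠ 0 → f i b ≠ 0 → a % k = b % k → a = b)
    (h4 : ∀ i ∈ T, ∀ i' ∈ T, (∀ j, f i j = f i' j) → i = i') :
    T.card ≤ (dset q S k ∩ Set.Iio (wt q J)).ncard := by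
  classical
  have hex : ∀ i ∈ T, ∃ x, x < wt q J ∧ ∀ j, dig q x j = f i j := by
    intro i hi
    obtain ⟨x, hx, hd⟩ := exists_val h.two (f i) (fun j => by
      have := h.small j _ (h1 i hi j)
      omega) J
    refine ⟨x, hx, ?_⟩
    intro j
    rw [hd]
    split_ifs with hj
    · rfl
    · exact (h2 i hi j (by omega)).symm
  choose! g hg1 hg2 using hex
  rw [← Set.ncard_coe_finset T]
  refine Set.ncard_le_ncard_of_injOn g ?_ ?_ (Set.finite_Iio _ |>.subset Set.inter_subset_right)
  · intro i hi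
    rw [mem_coe] at hi
    refine ⟨⟨?_, ?_⟩, hg1 i hi⟩
    · intro j
      rw [hg2 i hi]
      exact h1 i hi j
    · intro a b ha hb hab
      rw [hg2 i hi] at ha hb
      exact h3 i hi a b ha hb hab
  · intro i hi i' hi' hii
    rw [mem_coe] at hi hi'
    refine h4 i hi i' hi' ?_
    intro j
    rw [← hg2 i hi, ← hg2 i' hi', hii]

/-- consecutive nonzero digits -/
lemma count_consecutive {q : ℕ → ℕ} {S : ℕ → Finset ℕ} (h : Good q S) {k : ℕ}
    (i0 : ℕ) :
    ∏ c ∈ range k, (S (i0 + c)).card ≤ (dset q S k ∩ Set.Iio (wt q (i0 + k))).ncard := by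
  classical
  have h0 := count_family h (k := k) (J := i0 + k)
    (Fintype.piFinset (fun c : Fin k => S (i0 + c)))
    (fun a j => if hj : i0 ≤ j ∧ j < i0 + k then a ⟨j - i0, by omega⟩ else 0) ?_ ?_ ?_ ?_
  · rw [Fintype.card_piFinset] at h0
    refine le_trans (le_of_eq ?_) h0
    rw [← Fin.prod_univ_eq_prod_range (fun c => (S (i0 + c)).card) k]
  · intro a ha j
    rw [Fintype.mem_piFinset] at ha
    by_cases hj : i0 ≤ j ∧ j < i0 + k
    · rw [dif_pos hj]
      have := ha ⟨j - i0, by omega⟩
      simp only at this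
      rwa [show i0 + (j - i0) = j by omega] at this
    · rw [dif_neg hj]
      exact h.zero j
  · intro a _ j hj
    rw [dif_neg (by omega)]
  · intro a _ x y hx hy hxy
    by_cases hx1 : i0 ≤ x ∧ x < i0 + k
    · by_cases hy1 : i0 ≤ y ∧ y < i0 + k
      · by_contra hne
        have h1 : (x : ℤ) ≡ y [ZMOD k] := by
          exact_mod_cast (show x ≡ y [MOD k] from hxy)
        have h2 := h1.dvd
        obtain ⟨c, hc⟩ := h2
        have h3 : (c : ℤ) ≠ 0 := by
          rintro rfl
          apply hne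
          omega
        rcases lt_or_gt_of_ne h3 with h4 | h4
        · have : (k : ℤ) * c ≤ -k := by nlinarith
          omega
        · have : (k : ℤ) ≤ k * c := by nlinarith
          omega
      · rw [dif_neg hy1] at hy
        exact absurd rfl hy
    · rw [dif_neg hx1] at hx
      exact absurd rfl hx
  · intro a _ b _ hab
    ext c
    have := hab (i0 + c)
    rw [dif_pos (by omega), dif_pos (by omega)] at this
    simpa using this

/-- radix four, digits zero and one -/
lemma good_four : Good (fun _ => 4) (fun _ => {0, 1}) where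
  two := fun _ => by norm_num
  zero := fun _ => by simp
  small := by
    intro j s hs
    simp only [mem_insert, mem_singleton] at hs
    omega
  sidon := by
    intro j a ha b hb c hc d hd h
    simp only [mem_insert, mem_singleton] at ha hb hc hd
    omega

lemma wt_four (l : ℕ) : wt (fun _ => 4) l = 4 ^ l := by
  simp [wt]

/-- at most one digit one in every residue class -/
lemma count_four {k : ℕ} (hk : 1 ≤ k) (J : ℕ) :
    J ^ k ≤ (dset (fun _ => 4) (fun _ => {0, 1}) k ∩ Set.Iio (4 ^ (k * J))).ncard := by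
  classical
  have h0 := count_family good_four (k := k) (J := k * J)
    (univ : Finset (Fin k → Fin J))
    (fun a j => if (a ⟨j % k, Nat.mod_lt _ (by omega)⟩ : ℕ) = j / k then 1 else 0) ?_ ?_ ?_ ?_
  · rw [Finset.card_univ, Fintype.card_fun, Fintype.card_fin, Fintype.card_fin, wt_four] at h0
    exact h0
  · intro a _ j
    split_ifs <;> simp
  · intro a _ j hj
    rw [if_neg]
    intro h1
    have h2 := (a ⟨j % k, Nat.mod_lt _ (by omega)⟩).2
    rw [h1, Nat.div_lt_iff_lt_mul (by omega), mul_comm] at h2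
    omega
  · intro a _ x y hx hy hxy
    have hx1 : (a ⟨x % k, Nat.mod_lt _ (by omega)⟩ : ℕ) = x / k := by
      by_contra hne
      rw [if_neg hne] at hx
      exact hx rfl
    have hy1 : (a ⟨y % k, Nat.mod_lt _ (by omega)⟩ : ℕ) = y / k := by
      by_contra hne
      rw [if_neg hne] at hy
      exact hy rfl
    have h1 : x / k = y / k := by
      rw [← hx1, ← hy1]
      congr 3
    rw [← Nat.div_add_mod x k, ← Nat.div_add_mod y k, h1, hxy]
  · intro a _ b _ hab
    ext c
    have := hab (k * (a c) + c)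
    have h1 : (k * (a c : ℕ) + c) % k = c := by
      rw [Nat.mul_add_mod, Nat.mod_eq_of_lt c.2]
    have h2 : (k * (a c : ℕ) + c) / k = a c := by
      rw [Nat.mul_add_div (by omega), Nat.div_eq_of_lt c.2, add_zero]
    have h3 : (⟨(k * (a c : ℕ) + c) % k, Nat.mod_lt _ (by omega)⟩ : Fin k) = c := Fin.ext h1
    rw [h3, h2, if_pos rfl] at this
    by_contra hne
    rw [if_neg (by omega)] at this
    omega

end Pool.Agent.Helper76.FX
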