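import Pool.Agent.Helper76.FX.Thr

/-!
# General classes of factor complexity
-/

set_option autoImplicit false

open Filter Finset

namespace Pool.Agent.Helper76.FX

/-- the weights of a radix system with `q = 2 h (weight)` -/
def W (h : ℕ → ℕ) : ℕ → ℕ
  | 0 => 1
  | j + 1 => 2 * h (W h j) * W h j

/-- the radix system -/
def rad (h : ℕ → ℕ) (j : ℕ) : ℕ := 2 * h (W h j)

lemma wt_rad (h : ℕ → ℕ) (j : ℕ) : wt (rad h) j = W h j := by
  induction j with
  | zero => rw [wt_zero]; rfl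
  | succ j ih =>
    rw [wt_succ, ih]
    show W h j * (2 * h (W h j)) = 2 * h (W h j) * W h j
    ring

open Classical in
/-- a finite Sidon set below `m` -/
noncomputable def sid (m : ℕ) : Finset ℕ :=
  if h : 1 ≤ m then (exists_sidon m h).choose else {0}

lemma sid_spec {m : ℕ} (h : 1 ≤ m) : 0 ∈ sid m ∧ (∀ s ∈ sid m, s < m) ∧
    (∀ a ∈ sid m, ∀ b ∈ sid m, ∀ c ∈ sid m, ∀ d ∈ sid m, a + b = c + d →
      (a = c ∧ b = d) ∨ (a = d ∧ b = c)) ∧ m ≤ 32 * (sid m).card ^ 2 := by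
  unfold sid
  rw [dif_pos h]
  exact (exists_sidon m h).choose_spec

lemma good_rad {h : ℕ → ℕ} (h1 : ∀ x, 1 ≤ h x) :
    Good (rad h) (fun j => sid (h (W h j))) where
  two := fun j => by
    have := h1 (W h j)
    unfold rad
    omega
  zero := fun j => (sid_spec (h1 _)).1
  small := fun j s hs => by
    have := (sid_spec (h1 _)).2.1 s hs
    unfold rad
    omega
  sidon := fun j a ha b hb c hc d hd => (sid_spec (h1 _)).2.2.1 a ha b hb c hc d hd

lemma W_ge {h : ℕ → ℕ} (h1 : ∀ x, 1 ≤ h x) (j : ℕ) : 2 ^ j ≤ W h j := by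
  rw [← wt_rad]
  exact wt_ge (good_rad h1).two j

lemma W_mono {h : ℕ → ℕ} (h1 : ∀ x, 1 ≤ h x) {i j : ℕ} (hij : i ≤ j) : W h i ≤ W h j := by
  rw [← wt_rad, ← wt_rad]
  exact wt_mono (good_rad h1).two hij

lemma exists_index {h : ℕ → ℕ} (h1 : ∀ x, 1 ≤ h x) {x : ℕ} (hx : 1 ≤ x) :
    ∃ l, W h l ≤ x ∧ x < W h (l + 1) := by
  refine ⟨Nat.findGreatest (fun l => W h l ≤ x) x, ?_, ?_⟩
  · exact Nat.findGreatest_spec (P := fun l => W h l ≤ x) (Nat.zero_le x) (by
      show W h 0 ≤ x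
      exact hx)
  · rcases Nat.lt_or_ge x (Nat.findGreatest (fun l => W h l ≤ x) x + 1) with hlt | hge
    · refine lt_of_lt_of_le hlt ?_
      exact (Nat.lt_two_pow_self.le).trans (W_ge h1 _)
    · have := Nat.findGreatest_is_greatest (P := fun l => W h l ≤ x) (n := x)
        (Nat.lt_succ_self _) hge
      exact not_le.1 this

theorem construct {h : ℕ → ℕ} (hmono : Monotone h) (h1 : ∀ x, 1 ≤ h x) {k : ℕ} (hk : 1 ≤ k) :
    ∃ A : Set ℕ, (∀ n, rep A n ≤ 2 ^ k) ∧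
      (∀ L, 1 ≤ L → complexity A L ≤ 4 ^ (k + 1) * (2 * h L * L)) ∧
      ∀ i, ∏ c ∈ range k, h (W h (i + c)) ≤ 32 ^ k * (A ∩ Set.Iio (W h (i + k))).ncard ^ 2 := by
  refine ⟨dset (rad h) (fun j => sid (h (W h j))) k, rep_dset (good_rad h1) hk, ?_, ?_⟩
  · intro L hL
    obtain ⟨l, hl1, hl2⟩ := exists_index h1 hL
    have h3 := complexity_dset (good_rad h1) hk (l := l + 1) (L := L)
      (by rw [wt_rad]; exact hl2.le)
    rw [wt_rad] at h3
    refine h3.trans (Nat.mul_le_mul_left _ ?_)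
    show 2 * h (W h l) * W h l ≤ 2 * h L * L
    exact Nat.mul_le_mul (Nat.mul_le_mul_left _ (hmono hl1)) hl1
  · intro i
    have h3 := count_consecutive (good_rad h1) (k := k) i
    rw [wt_rad] at h3
    have h4 : ∏ c ∈ range k, h (W h (i + c)) ≤
        ∏ c ∈ range k, (32 * (sid (h (W h (i + c)))).card ^ 2) :=
      Finset.prod_le_prod' (fun c _ => (sid_spec (h1 _)).2.2.2)
    rw [Finset.prod_mul_distrib, Finset.prod_const, card_range, Finset.prod_pow] at h4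
    refine h4.trans (Nat.mul_le_mul_left _ (Nat.pow_le_pow_left h3 2))

lemma complexity_le_two_pow (A : Set ℕ) (L : ℕ) : complexity A L ≤ 2 ^ L := by
  classical
  unfold complexity
  refine (Set.ncard_le_ncard (Set.subset_univ _) (Set.toFinite _)).trans ?_
  rw [Set.ncard_univ, Nat.card_eq_fintype_card, Fintype.card_set, Fintype.card_fin]

/-- `p_A(L) ≤ L φ(L) ^ C` for some `C` and all large `L` -/
def Cl (φ : ℕ → ℝ) (A : Set ℕ) : Prop :=
  ∃ C : ℕ, ∀ᶠ L : ℕ in atTop, (complexity A L : ℝ) ≤ L * φ L ^ C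

section
variable {φ : ℕ → ℝ} (hmono : Monotone φ) (hlog : ∀ᶠ N : ℕ in atTop, Real.log N ≤ φ N)
include hmono hlog

omit hmono in
lemma phi_tendsto : Tendsto φ atTop atTop := by
  have h1 : Tendsto (fun N : ℕ => Real.log N) atTop atTop :=
    Real.tendsto_log_atTop.comp tendsto_natCast_atTop_atTop
  exact tendsto_atTop_mono' _ hlog h1

theorem cl_upper' {c : ℕ} (hsq : ∀ᶠ N : ℕ in atTop, φ (N ^ 2) ≤ φ N ^ c) {A : Set ℕ} {C : ℕ}
    (hC : ∀ᶠ L : ℕ in atTop, (complexity A L : ℝ) ≤ L * φ L ^ C) {R : ℕ}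
    (hr : ∀ n, rep A n ≤ R) :
    ∀ᶠ N : ℕ in atTop, ((A ∩ Set.Icc 1 N).ncard : ℝ) ≤ φ N ^ ((c * C + 2) * Nat.log 2 R) := by
  have htend := phi_tendsto hlog
  obtain ⟨L0, hL0⟩ := eventually_atTop.1 (hC.and (htend.eventually_ge_atTop 1))
  set t := Nat.log 2 R with ht
  filter_upwards [hsq, hlog, htend.eventually_ge_atTop 1,
    htend.eventually_ge_atTop (2 ^ (t + 6) * (2 + 2 ^ L0)), eventually_ge_atTop (L0 + 3)]
    with N h1 h2 h3 h4 h5
  have hlogN := one_le_log (show 3 ≤ N by omega)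
  set P := ⌈φ (2 * N) ^ C⌉₊ + 2 ^ L0 with hP
  have hφ2 : 1 ≤ φ (2 * N) := (hL0 (2 * N) (by omega)).2
  have hPcast : ((P : ℕ) : ℝ) ≤ φ (2 * N) ^ C + 1 + 2 ^ L0 := by
    rw [hP]
    push_cast
    have := (Nat.ceil_lt_add_one (show 0 ≤ φ (2 * N) ^ C by positivity)).le
    linarith
  have hp : ∀ L, 1 ≤ L → L ≤ 2 * N → complexity A L ≤ P * L := by
    intro L hL1 hL2
    rcases Nat.lt_or_ge L L0 with hlt | hge
    · calc complexity A L ≤ 2 ^ L := complexity_le_two_pow A L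
        _ ≤ 2 ^ L0 := Nat.pow_le_pow_right (by norm_num) hlt.le
        _ ≤ P := Nat.le_add_left _ _
        _ = P * 1 := (mul_one _).symm
        _ ≤ P * L := Nat.mul_le_mul_left _ hL1
    · have h6 : (complexity A L : ℝ) ≤ ((P * L : ℕ) : ℝ) := by
        have h7 := (hL0 L hge).1
        have h8 : φ L ^ C ≤ φ (2 * N) ^ C :=
          pow_le_pow_left₀ (by linarith [(hL0 L hge).2]) (hmono hL2) C
        have h9 : φ (2 * N) ^ C ≤ ((P : ℕ) : ℝ) := by
          rw [hP]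
          push_cast
          have := Nat.le_ceil (φ (2 * N) ^ C)
          have h10 : (0 : ℝ) ≤ 2 ^ L0 := by positivity
          linarith
        push_cast
        calc (complexity A L : ℝ) ≤ L * φ L ^ C := h7
          _ ≤ L * P := by gcongr; exact h8.trans h9
          _ = P * L := mul_comm _ _
      exact_mod_cast h6
  have h6 := ineq_log A t N P (by
      have : 1 ≤ 2 ^ L0 := Nat.one_le_two_pow
      omega) (by omega)
    (fun n => lt_of_le_of_lt (hr n) (Nat.lt_pow_succ_log_self (by norm_num) R)) hp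
  refine h6.trans ?_
  rw [pow_mul]
  refine pow_le_pow_left₀ (by positivity) ?_ t
  have h7 : φ (2 * N) ≤ φ N ^ c := by
    refine (hmono ?_).trans h1
    nlinarith
  have h8 : φ (2 * N) ^ C ≤ φ N ^ (c * C) := by
    rw [pow_mul]
    exact pow_le_pow_left₀ (by linarith) h7 C
  have h9 : 1 ≤ φ N ^ (c * C) := one_le_pow₀ h3
  have h10 : (P : ℝ) ≤ (2 + 2 ^ L0) * φ N ^ (c * C) := by
    have h11 : (0 : ℝ) ≤ 2 ^ L0 := by positivity
    nlinarith
  calc (2 : ℝ) ^ (t + 6) * P * Real.log N ≤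
      2 ^ (t + 6) * ((2 + 2 ^ L0) * φ N ^ (c * C)) * φ N := by gcongr
    _ = (2 ^ (t + 6) * (2 + 2 ^ L0)) * (φ N ^ (c * C) * φ N) := by ring
    _ ≤ φ N * (φ N ^ (c * C) * φ N) := by gcongr
    _ = φ N ^ (c * C + 2) := by ring

theorem cl_upper {c : ℕ} (hsq : ∀ᶠ N : ℕ in atTop, φ (N ^ 2) ≤ φ N ^ c) {A : Set ℕ}
    (hA : Cl φ A) {R : ℕ} (hr : ∀ n, rep A n ≤ R) :
    ∃ E : ℕ, ∀ᶠ N : ℕ in atTop, ((A ∩ Set.Icc 1 N).ncard : ℝ) ≤ φ N ^ E := by
  obtain ⟨C, hC⟩ := hA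
  exact ⟨_, cl_upper' hmono hlog hsq hC hr⟩

/-- the function `h` belonging to `φ` -/
noncomputable def hf (φ : ℕ → ℝ) (x : ℕ) : ℕ := ⌈φ x⌉₊ ^ 2 + 1

omit hlog in
lemma hf_mono : Monotone (hf φ) := by
  intro x y hxy
  unfold hf
  have := Nat.ceil_le_ceil (hmono hxy)
  exact Nat.add_le_add_right (Nat.pow_le_pow_left this 2) 1

omit hmono hlog in
lemma hf_pos (x : ℕ) : 1 ≤ hf φ x := Nat.le_add_left _ _

omit hmono hlog in
lemma hf_le {x : ℕ} (h : 1 ≤ φ x) : (hf φ x : ℝ) ≤ 5 * φ x ^ 2 := by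
  unfold hf
  push_cast
  have h1 := (Nat.ceil_lt_add_one (show 0 ≤ φ x by linarith)).le
  have h2 : (⌈φ x⌉₊ : ℝ) ≤ 2 * φ x := by linarith
  have h3 : (⌈φ x⌉₊ : ℝ) ^ 2 ≤ (2 * φ x) ^ 2 := pow_le_pow_left₀ (by positivity) h2 2
  nlinarith

omit hmono hlog in
lemma le_hf {x : ℕ} (h : 0 ≤ φ x) : φ x ^ 2 ≤ (hf φ x : ℝ) := by
  unfold hf
  push_cast
  have h1 : φ x ^ 2 ≤ (⌈φ x⌉₊ : ℝ) ^ 2 := pow_le_pow_left₀ h (Nat.le_ceil _) 2
  linarith

theorem cl_lower {c : ℕ} (hsq : ∀ᶠ N : ℕ in atTop, φ (N ^ 2) ≤ φ N ^ c)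
    (hsmall : ∀ ε : ℝ, 0 < ε → ∀ᶠ N : ℕ in atTop, φ N ≤ (N : ℝ) ^ ε) (C : ℕ) :
    ∃ A : Set ℕ, Cl φ A ∧ (∃ R : ℕ, ∀ n, rep A n ≤ R) ∧
      ∀ᶠ N : ℕ in atTop, φ N ^ C ≤ ((A ∩ Set.Icc 1 N).ncard : ℝ) := by
  set k := c * C + 1 with hk
  have htend := phi_tendsto hlog
  obtain ⟨A, hA1, hA2, hA3⟩ := construct (hf_mono hmono) (hf_pos (φ := φ)) (k := k) (by omega)
  refine ⟨A, ⟨3, ?_⟩, ⟨2 ^ k, hA1⟩, ?_⟩
  · filter_upwards [htend.eventually_ge_atTop 1, htend.eventually_ge_atTop (10 * 4 ^ (k + 1)),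
      eventually_ge_atTop 1] with L h1 h2 h3
    have h4 : (complexity A L : ℝ) ≤ 4 ^ (k + 1) * (2 * hf φ L * L) := by
      exact_mod_cast hA2 L h3
    refine h4.trans ?_
    calc (4 : ℝ) ^ (k + 1) * (2 * hf φ L * L) ≤ 4 ^ (k + 1) * (2 * (5 * φ L ^ 2) * L) := by
          gcongr
          exact hf_le h1
      _ = L * ((10 * 4 ^ (k + 1)) * φ L ^ 2) := by ring
      _ ≤ L * (φ L * φ L ^ 2) := by gcongr
      _ = L * φ L ^ 3 := by ring
  · -- the good `z`
    have hsq2 : Tendsto (fun z : ℕ => z ^ 2) atTop atTop :=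
      tendsto_pow_atTop (by norm_num)
    have hb : ∀ᶠ z : ℕ in atTop, (2 * hf φ (z ^ 2)) ^ (k + 1) ≤ z := by
      have hε : (0 : ℝ) < 1 / (8 * (k + 1)) := by positivity
      filter_upwards [hsq2.eventually (hsmall _ hε), hsq2.eventually (htend.eventually_ge_atTop 1),
        eventually_ge_atTop (100 ^ (k + 1))] with z h1 h2 h3
      have hz : (0 : ℝ) < z := by
        have : 0 < z := lt_of_lt_of_le (by positivity) h3
        exact_mod_cast this
      have h4 : ((2 * hf φ (z ^ 2) : ℕ) : ℝ) ≤ 10 * φ (z ^ 2) ^ 2 := by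
        push_cast
        have := hf_le h2
        linarith
      have h5 : (φ (z ^ 2) ^ 2) ^ (k + 1) ≤ (z : ℝ) ^ (1 / 2 : ℝ) := by
        have h6 : φ (z ^ 2) ≤ (z : ℝ) ^ (2 * (1 / (8 * ((k : ℝ) + 1)))) := by
          refine h1.trans (le_of_eq ?_)
          push_cast
          rw [Real.rpow_mul hz.le, Real.rpow_two]
        calc (φ (z ^ 2) ^ 2) ^ (k + 1) ≤
            (((z : ℝ) ^ (2 * (1 / (8 * ((k : ℝ) + 1))))) ^ 2) ^ (k + 1) := by gcongr
          _ = (z : ℝ) ^ (1 / 2 : ℝ) := by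
              rw [← pow_mul, ← Real.rpow_natCast, ← Real.rpow_mul hz.le]
              congr 1
              push_cast
              field_simp
              norm_num
      have h6 : (10 : ℝ) ^ (k + 1) ≤ (z : ℝ) ^ (1 / 2 : ℝ) := by
        rw [← Real.sqrt_eq_rpow]
        apply Real.le_sqrt_of_sq_le
        rw [← pow_mul, mul_comm (k + 1) 2, pow_mul]
        norm_num
        exact_mod_cast h3
      have h7 : (((2 * hf φ (z ^ 2)) ^ (k + 1) : ℕ) : ℝ) ≤ z := by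
        push_cast
        push_cast at h4
        calc ((2 : ℝ) * hf φ (z ^ 2)) ^ (k + 1) ≤ (10 * φ (z ^ 2) ^ 2) ^ (k + 1) := by gcongr
          _ = 10 ^ (k + 1) * (φ (z ^ 2) ^ 2) ^ (k + 1) := mul_pow _ _ _
          _ ≤ (z : ℝ) ^ (1 / 2 : ℝ) * (z : ℝ) ^ (1 / 2 : ℝ) := by gcongr
          _ = z := by
              rw [← Real.rpow_add hz]
              norm_num
      exact_mod_cast h7
    obtain ⟨z0, hz0⟩ := eventually_atTop.1 (hb.and (hsq.and
      (htend.eventually_ge_atTop (2 * 6 ^ k))))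
    filter_upwards [eventually_ge_atTop (W (hf φ) (z0 + k))] with N hN
    have hWpos : ∀ j, 1 ≤ W (hf φ) j := fun j => Nat.one_le_two_pow.trans (W_ge hf_pos j)
    obtain ⟨i', hi1, hi2⟩ := exists_index (hf_pos (φ := φ)) (x := N) ((hWpos _).trans hN)
    have hi3 : z0 + k ≤ i' := by
      by_contra hcon
      have := W_mono (hf_pos (φ := φ)) (i := i' + 1) (j := z0 + k) (by omega)
      omega
    set i := i' - k with hi
    have hii : i' = i + k := by omega
    set z := W (hf φ) i with hz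
    have hzz0 : z0 ≤ z := by
      have h1 := W_ge (hf_pos (φ := φ)) i
      have h2 : i < 2 ^ i := Nat.lt_two_pow_self
      omega
    obtain ⟨hz1, hz2, hz3⟩ := hz0 z hzz0
    set Y := 2 * hf φ (z ^ 2) with hY
    have hY1 : 1 ≤ Y := by
      have := hf_pos (φ := φ) (z ^ 2)
      omega
    have hgrow : ∀ r, r ≤ k + 1 → W (hf φ) (i + r) ≤ z * Y ^ r := by
      intro r
      induction r with
      | zero => intro _; simp [hz]
      | succ r ih =>
        intro hr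
        have h1 := ih (by omega)
        have h2 : W (hf φ) (i + r) ≤ z ^ 2 := by
          rw [pow_two]
          refine h1.trans (Nat.mul_le_mul_left _ ?_)
          exact (Nat.pow_le_pow_right hY1 (by omega)).trans hz1
        show 2 * hf φ (W (hf φ) (i + r)) * W (hf φ) (i + r) ≤ z * Y ^ (r + 1)
        calc 2 * hf φ (W (hf φ) (i + r)) * W (hf φ) (i + r) ≤ Y * (z * Y ^ r) :=
              Nat.mul_le_mul (Nat.mul_le_mul_left _ (hf_mono hmono h2)) h1
          _ = z * Y ^ (r + 1) := by ring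
    have hNz : N ≤ z ^ 2 := by
      rw [hii] at hi2
      have h1 := hgrow (k + 1) le_rfl
      have h2 : z * Y ^ (k + 1) ≤ z * z := Nat.mul_le_mul_left _ hz1
      rw [pow_two]
      rw [show i + (k + 1) = i + k + 1 by omega] at h1
      omega
    have hφz : (1 : ℝ) ≤ φ z := by
      have : (1 : ℝ) ≤ 6 ^ k := one_le_pow₀ (by norm_num)
      linarith
    have hzN : z ≤ N := (W_mono (hf_pos (φ := φ)) (by omega : i ≤ i')).trans hi1
    have hφN : φ N ^ C ≤ φ z ^ (c * C) := by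
      rw [pow_mul]
      exact pow_le_pow_left₀ (by linarith [hmono hzN]) ((hmono hNz).trans hz2) C
    -- the count
    have h3 := hA3 i
    have h4 : (φ z ^ 2) ^ k ≤ 32 ^ k * ((A ∩ Set.Iio (W (hf φ) (i + k))).ncard : ℝ) ^ 2 := by
      calc (φ z ^ 2) ^ k = ∏ _c ∈ range k, φ z ^ 2 := by
            rw [Finset.prod_const, card_range]
        _ ≤ ∏ c ∈ range k, (hf φ (W (hf φ) (i + c)) : ℝ) := by
            apply Finset.prod_le_prod
            · intro c _; positivity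
            · intro c _
              refine (le_hf (by linarith)).trans ?_
              exact_mod_cast hf_mono hmono (W_mono hf_pos (by omega))
        _ ≤ _ := by exact_mod_cast h3
    set n := (A ∩ Set.Iio (W (hf φ) (i + k))).ncard with hn
    have h5 : φ z ^ k ≤ 6 ^ k * n := by
      apply le_of_sq_le_sq _ (by positivity)
      calc (φ z ^ k) ^ 2 = (φ z ^ 2) ^ k := by rw [← pow_mul, ← pow_mul, mul_comm]
        _ ≤ 32 ^ k * (n : ℝ) ^ 2 := h4
        _ ≤ 36 ^ k * (n : ℝ) ^ 2 := by gcongr; norm_num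
        _ = (6 ^ k * n) ^ 2 := by
            rw [mul_pow, ← pow_mul, mul_comm k 2, pow_mul]
            norm_num
    have h6 : n ≤ (A ∩ Set.Icc 1 N).ncard + 1 := by
      rw [hn, ← hii]
      exact count_Icc (by omega)
    have h7 : (n : ℝ) ≤ ((A ∩ Set.Icc 1 N).ncard : ℝ) + 1 := by exact_mod_cast h6
    have h8 : 2 * φ z ^ (c * C) ≤ n := by
      have h9 : 6 ^ k * (2 * φ z ^ (c * C)) ≤ 6 ^ k * (n : ℝ) := by
        refine le_trans ?_ h5
        calc (6 : ℝ) ^ k * (2 * φ z ^ (c * C)) = (2 * 6 ^ k) * φ z ^ (c * C) := by ring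
          _ ≤ φ z * φ z ^ (c * C) := by gcongr
          _ = φ z ^ k := by rw [hk]; ring
      exact le_of_mul_le_mul_left h9 (by positivity)
    have h9 : 1 ≤ φ z ^ (c * C) := one_le_pow₀ hφz
    linarith

theorem cl_thr {c : ℕ} (hsq : ∀ᶠ N : ℕ in atTop, φ (N ^ 2) ≤ φ N ^ c)
    (hsmall : ∀ ε : ℝ, 0 < ε → ∀ᶠ N : ℕ in atTop, φ N ≤ (N : ℝ) ^ ε) (g : ℕ → ℝ) :
    ForcesIn (Cl φ) g ↔ ∀ C : ℕ, ∃ᶠ N : ℕ in atTop, φ N ^ C < Real.sqrt N / g N := by
  constructor
  · intro hF C hcon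
    simp only [not_lt] at hcon
    obtain ⟨A, hA, ⟨R, hR⟩, hlow⟩ := cl_lower hmono hlog hsq hsmall C
    obtain ⟨n, hn⟩ := hF A hA ⟨1, one_pos, by
      filter_upwards [hcon, hlow] with N h1 h2
      linarith⟩ R
    have := hR n
    omega
  · intro h A hA hD K
    by_contra hcon
    push Not at hcon
    obtain ⟨E, hE⟩ := cl_upper hmono hlog hsq hA hcon
    obtain ⟨C', hC', hD⟩ := hD
    have htend := phi_tendsto hlog
    obtain ⟨N, h1, ⟨h2, h3⟩, h4⟩ := ((h (E + 1)).and_eventually ((hE.and hD).and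
      (htend.eventually_ge_atTop (max C' 1)))).exists
    have h5 : (1 : ℝ) ≤ φ N := (le_max_right _ _).trans h4
    have h6 : C' ≤ φ N := (le_max_left _ _).trans h4
    have : Real.sqrt N / g N ≤ φ N ^ (E + 1) := by
      calc Real.sqrt N / g N ≤ C' * ((A ∩ Set.Icc 1 N).ncard : ℝ) := h3
        _ ≤ φ N * φ N ^ E := by gcongr
        _ = φ N ^ (E + 1) := by ring
    linarith

end

end Pool.Agent.Helper76.FX
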