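import Mathlib

/-!
# Factor complexity and bounded representation functions: the inequality
-/

set_option autoImplicit false

open Finset

namespace Pool.Agent.Helper76.FX

open Classical in
/-- representations of `n` as a sum of two elements of `A` in the window `[u, u + N)` -/
noncomputable def rp (A : Set ℕ) (u N n : ℕ) : ℕ :=
  ((Ico u (u + N) ×ˢ Ico u (u + N)).filter
    (fun p => p.1 ∈ A ∧ p.2 ∈ A ∧ p.1 + p.2 = n)).card

open Classical in
/-- the elements of `A` in the window `[u, u + N)` -/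
noncomputable def el (A : Set ℕ) (u N : ℕ) : Finset ℕ := (Ico u (u + N)).filter (· ∈ A)

open Classical in
/-- the factor of length `L` at the place `s` -/
noncomputable def fac (A : Set ℕ) (L s : ℕ) : Finset ℕ := (range L).filter (fun i => s + i ∈ A)

lemma mem_fac (A : Set ℕ) (L s i : ℕ) : i ∈ fac A L s ↔ i < L ∧ s + i ∈ A := by
  simp [fac]

lemma mem_el (A : Set ℕ) (u N a : ℕ) : a ∈ el A u N ↔ u ≤ a ∧ a < u + N ∧ a ∈ A := by
  simp [el, and_assoc]

/-- the window `[v, v + l)` is repeated inside `[u, u + N)` without overlap -/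
def Repd (A : Set ℕ) (u N v l : ℕ) : Prop :=
  ∃ w, u ≤ w ∧ w + l ≤ u + N ∧ (v + l ≤ w ∨ w + l ≤ v) ∧ ∀ i < l, (v + i ∈ A ↔ w + i ∈ A)

lemma double {A : Set ℕ} {u N v l : ℕ} (hu : u ≤ v) (hv : v + l ≤ u + N)
    (h : Repd A u N v l) (n : ℕ) : ∃ n', 2 * rp A v l n ≤ rp A u N n' := by
  classical
  obtain ⟨w, hw1, hw2, hw3, hw4⟩ := h
  refine ⟨n - v + w, ?_⟩
  set S := (Ico v (v + l) ×ˢ Ico v (v + l)).filter
    (fun p => p.1 ∈ A ∧ p.2 ∈ A ∧ p.1 + p.2 = n) with hS
  set f1 : ℕ × ℕ → ℕ × ℕ := fun p => (p.1, p.2 - v + w) with hf1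
  set f2 : ℕ × ℕ → ℕ × ℕ := fun p => (p.1 - v + w, p.2) with hf2
  have hmem : ∀ p ∈ S, v ≤ p.1 ∧ p.1 < v + l ∧ v ≤ p.2 ∧ p.2 < v + l ∧ p.1 ∈ A ∧ p.2 ∈ A ∧
      p.1 + p.2 = n := by
    intro p hp
    simp only [hS, mem_filter, mem_product, mem_Ico] at hp
    tauto
  have hsh : ∀ y, v ≤ y → y < v + l → (y ∈ A ↔ y - v + w ∈ A) := by
    intro y h1 h2
    have := hw4 (y - v) (by omega)
    rw [show v + (y - v) = y by omega, show w + (y - v) = y - v + w by omega] at this
    exact this
  have hi1 : (S.image f1).card = S.card := by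
    apply card_image_of_injOn
    intro p hp q hq hpq
    have h1 := hmem p hp
    have h2 := hmem q hq
    simp only [hf1, Prod.mk.injEq] at hpq
    ext
    · exact hpq.1
    · omega
  have hi2 : (S.image f2).card = S.card := by
    apply card_image_of_injOn
    intro p hp q hq hpq
    have h1 := hmem p hp
    have h2 := hmem q hq
    simp only [hf2, Prod.mk.injEq] at hpq
    ext
    · omega
    · exact hpq.2
  have hdis : Disjoint (S.image f1) (S.image f2) := by
    rw [Finset.disjoint_left]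
    intro x hx1 hx2
    obtain ⟨p, hp, rfl⟩ := mem_image.1 hx1
    obtain ⟨q, hq, hpq⟩ := mem_image.1 hx2
    have h1 := hmem p hp
    have h2 := hmem q hq
    simp only [hf1, hf2, Prod.mk.injEq] at hpq
    omega
  have hsub : S.image f1 ∪ S.image f2 ⊆ (Ico u (u + N) ×ˢ Ico u (u + N)).filter
      (fun p => p.1 ∈ A ∧ p.2 ∈ A ∧ p.1 + p.2 = n - v + w) := by
    intro x hx
    rw [mem_union] at hx
    rcases hx with hx | hx
    · obtain ⟨p, hp, rfl⟩ := mem_image.1 hx
      have h1 := hmem p hp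
      have h2 := (hsh p.2 h1.2.2.1 h1.2.2.2.1).1 h1.2.2.2.2.2.1
      simp only [hf1, mem_filter, mem_product, mem_Ico]
      refine ⟨⟨⟨?_, ?_⟩, ?_, ?_⟩, h1.2.2.2.2.1, h2, ?_⟩ <;> omega
    · obtain ⟨p, hp, rfl⟩ := mem_image.1 hx
      have h1 := hmem p hp
      have h2 := (hsh p.1 h1.1 h1.2.1).1 h1.2.2.2.2.1
      simp only [hf2, mem_filter, mem_product, mem_Ico]
      refine ⟨⟨⟨?_, ?_⟩, ?_, ?_⟩, h2, h1.2.2.2.2.2.1, ?_⟩ <;> omega
  have h3 := card_le_card hsub
  rw [card_union_of_disjoint hdis, hi1, hi2] at h3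
  have h4 : rp A v l n = S.card := rfl
  have h5 : rp A u N (n - v + w) = ((Ico u (u + N) ×ˢ Ico u (u + N)).filter
      (fun p => p.1 ∈ A ∧ p.2 ∈ A ∧ p.1 + p.2 = n - v + w)).card := rfl
  rw [h4, h5]
  omega

lemma ap {A : Set ℕ} {u N a d T : ℕ} (hd : 0 < d) (hua : u ≤ a) (hT : 0 < T)
    (hN : a + (T - 1) * d < u + N) (h : ∀ i < T, a + i * d ∈ A) :
    T ≤ rp A u N (2 * a + (T - 1) * d) := by
  classical
  have hinj : Set.InjOn (fun i => (a + i * d, a + (T - 1 - i) * d)) (range T : Set ℕ) := by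
    intro i _ j _ hij
    simp only [Prod.mk.injEq] at hij
    have : i * d = j * d := by omega
    exact Nat.eq_of_mul_eq_mul_right hd this
  have h1 := card_image_of_injOn hinj
  rw [card_range] at h1
  refine h1.symm.le.trans ?_
  apply card_le_card
  intro x hx
  obtain ⟨i, hi, rfl⟩ := mem_image.1 hx
  rw [mem_range] at hi
  have e1 : i * d ≤ (T - 1) * d := Nat.mul_le_mul_right _ (by omega)
  have e2 : (T - 1 - i) * d ≤ (T - 1) * d := Nat.mul_le_mul_right _ (by omega)
  have e3 : i * d + (T - 1 - i) * d = (T - 1) * d := by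
    rw [← Nat.add_mul]
    congr 1
    omega
  simp only [mem_filter, mem_product, mem_Ico]
  refine ⟨⟨⟨?_, ?_⟩, ?_, ?_⟩, h i hi, h _ (by omega), ?_⟩ <;> omega

lemma period {A : Set ℕ} {u N x d K a : ℕ} (hd : 0 < d) (hx : u ≤ x) (hN : x + d + K ≤ u + N)
    (hf : fac A K x = fac A K (x + d)) (ha1 : x ≤ a) (ha2 : a < x + K) (ha : a ∈ A) :
    ∃ n, K < rp A u N n * d := by
  have hstep : ∀ y, x ≤ y → y < x + K → (y ∈ A ↔ y + d ∈ A) := by
    intro y h1 h2
    have h3 : (y - x ∈ fac A K x) ↔ (y - x ∈ fac A K (x + d)) := by rw [hf]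
    rw [mem_fac, mem_fac, show x + (y - x) = y by omega, show x + d + (y - x) = y + d by omega]
      at h3
    have h4 : y - x < K := by omega
    tauto
  set a0 := x + (a - x) % d with ha0
  have hmod : (a - x) % d < d := Nat.mod_lt _ hd
  have hchain : ∀ i, a0 + i * d < x + K + d → (a0 ∈ A ↔ a0 + i * d ∈ A) := by
    intro i
    induction i with
    | zero => intro _; simp
    | succ i ih =>
      intro h
      have e : (i + 1) * d = i * d + d := by ring
      have h1 := ih (by omega)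
      have h2 := hstep (a0 + i * d) (by omega) (by omega)
      rw [h1, h2, e, add_assoc]
  have hai : a = a0 + ((a - x) / d) * d := by
    have := Nat.mod_add_div (a - x) d
    rw [mul_comm] at this
    omega
  have ha0A : a0 ∈ A := by
    rw [hchain ((a - x) / d) (by omega), ← hai]
    exact ha
  refine ⟨2 * a0 + (K / d + 1 - 1) * d, ?_⟩
  have hKd : K / d * d ≤ K := Nat.div_mul_le_self K d
  have hKd0 : 0 ≤ K / d := Nat.zero_le _
  have h1 := ap (A := A) (u := u) (N := N) (a := a0) (d := d) (T := K / d + 1) hd (by omega)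
    (Nat.succ_pos _) (by rw [Nat.add_sub_cancel]; omega) (by
      intro i hi
      have e1 : i * d ≤ K / d * d := Nat.mul_le_mul_right _ (by omega)
      exact (hchain i (by omega)).1 ha0A)
  have h2 : K < (K / d + 1) * d := by
    rw [mul_comm]
    exact Nat.lt_mul_div_succ K hd
  exact lt_of_lt_of_le h2 (Nat.mul_le_mul_right _ h1)

/-- at most `2 ^ t` pairs have the same factor -/
lemma fiber {A : Set ℕ} {u Q l t : ℕ} (hl : 0 < l)
    (hr : ∀ n, rp A u (Q * l) n < 2 ^ (t + 1)) (X : Finset (ℕ × ℕ)) (f : Finset ℕ)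
    (hX : ∀ x ∈ X, 0 < x.1 ∧ x.1 + 1 < Q ∧ x.2 < l ∧ (el A (u + x.1 * l) l).Nonempty ∧
      ¬ Repd A u (Q * l) (u + x.1 * l) l ∧ fac A (2 * l) (u + x.1 * l - x.2) = f) :
    X.card ≤ 2 ^ t := by
  classical
  rcases X.eq_empty_or_nonempty with hE | hne
  · subst hE
    simp
  -- starting points
  set st : ℕ × ℕ → ℕ := fun x => u + x.1 * l - x.2 with hst
  have hle : ∀ x ∈ X, l ≤ x.1 * l ∧ x.1 * l + 2 * l ≤ Q * l := by
    intro x hx
    obtain ⟨h1, h2, _⟩ := hX x hx
    constructor
    · exact Nat.le_mul_of_pos_left l h1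
    · rw [← Nat.add_mul]
      exact Nat.mul_le_mul_right _ (by omega)
  -- two pairs with the same factor
  have key : ∀ x ∈ X, ∀ y ∈ X, st x < st y → st y < st x + l ∧ l < 2 ^ t * (st y - st x) := by
    intro x hx y hy hlt
    obtain ⟨a1, a2, a3, a4, a5, a6⟩ := hX x hx
    obtain ⟨b1, b2, b3, b4, b5, b6⟩ := hX y hy
    obtain ⟨c1, c2⟩ := hle x hx
    obtain ⟨d1, d2⟩ := hle y hy
    have hfe : fac A (2 * l) (st x) = fac A (2 * l) (st y) := by
      rw [hst]
      simp only
      rw [a6, b6]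
    have hsx : st x = u + x.1 * l - x.2 := rfl
    have hsy : st y = u + y.1 * l - y.2 := rfl
    have hclose : st y < st x + l := by
      by_contra hcon
      apply a5
      refine ⟨st y + x.2, by omega, by omega, by omega, ?_⟩
      intro i hi
      have h3 : (x.2 + i ∈ fac A (2 * l) (st x)) ↔ (x.2 + i ∈ fac A (2 * l) (st y)) := by
        rw [hfe]
      rw [mem_fac, mem_fac, show st x + (x.2 + i) = u + x.1 * l + i by omega,
        show st y + (x.2 + i) = st y + x.2 + i by omega] at h3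
      have h4 : x.2 + i < 2 * l := by omega
      tauto
    refine ⟨hclose, ?_⟩
    obtain ⟨a, ha⟩ := a4
    rw [mem_el] at ha
    obtain ⟨n, hn⟩ := period (A := A) (u := u) (N := Q * l) (x := st x) (d := st y - st x)
      (K := 2 * l) (a := a) (by omega) (by omega) (by omega)
      (by rw [show st x + (st y - st x) = st y by omega]; exact hfe) (by omega) (by omega) ha.2.2
    have h5 := hr n
    have h6 : rp A u (Q * l) n * (st y - st x) ≤ (2 ^ (t + 1)) * (st y - st x) :=
      Nat.mul_le_mul_right _ h5.le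
    have h7 : 2 ^ (t + 1) * (st y - st x) = 2 * (2 ^ t * (st y - st x)) := by
      rw [pow_succ]
      ring
    omega
  have hinj0 : ∀ x ∈ X, ∀ y ∈ X, st x = st y → x = y := by
    intro x hx y hy hxy
    obtain ⟨a1, a2, a3, a4, a5, a6⟩ := hX x hx
    obtain ⟨b1, b2, b3, b4, b5, b6⟩ := hX y hy
    obtain ⟨c1, c2⟩ := hle x hx
    obtain ⟨d1, d2⟩ := hle y hy
    have hsx : st x = u + x.1 * l - x.2 := rfl
    have hsy : st y = u + y.1 * l - y.2 := rfl
    have h1 : x.1 = y.1 := by
      rcases lt_trichotomy x.1 y.1 with h | h | h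
      · have : x.1 * l + l ≤ y.1 * l := by
          calc x.1 * l + l = (x.1 + 1) * l := by ring
            _ ≤ y.1 * l := Nat.mul_le_mul_right _ h
        omega
      · exact h
      · have : y.1 * l + l ≤ x.1 * l := by
          calc y.1 * l + l = (y.1 + 1) * l := by ring
            _ ≤ x.1 * l := Nat.mul_le_mul_right _ h
        omega
    ext
    · exact h1
    · rw [h1] at hsx c1
      omega
  obtain ⟨x0, hx0, hmin⟩ := exists_min_image X st hne
  have hmaps : ∀ x ∈ X, (st x - st x0) * 2 ^ t / l ∈ range (2 ^ t) := by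
    intro x hx
    rw [mem_range, Nat.div_lt_iff_lt_mul hl, mul_comm]
    refine Nat.mul_lt_mul_of_pos_left ?_ (by positivity)
    have h1 := hmin x hx
    rcases Nat.lt_or_ge (st x0) (st x) with h | h
    · have := (key x0 hx0 x hx h).1
      omega
    · omega
  by_contra hcon
  push Not at hcon
  obtain ⟨x, hx, y, hy, hxy, he⟩ := exists_ne_map_eq_of_card_lt_of_maps_to
    (s := X) (t := range (2 ^ t)) (by rw [card_range]; exact hcon) hmaps
  -- the two starting points are close together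
  have aux : ∀ x ∈ X, ∀ y ∈ X, st x < st y →
      (st x - st x0) * 2 ^ t / l = (st y - st x0) * 2 ^ t / l → False := by
    intro x hx y hy hlt he
    have h1 := (key x hx y hy hlt).2
    have h2 := hmin x hx
    have h3 : (st y - st x0) * 2 ^ t = (st x - st x0) * 2 ^ t + 2 ^ t * (st y - st x) := by
      rw [show st y - st x0 = (st x - st x0) + (st y - st x) by omega]
      ring
    have h4 : (st x - st x0) * 2 ^ t / l + 1 ≤ (st y - st x0) * 2 ^ t / l := by
      rw [h3]
      calc (st x - st x0) * 2 ^ t / l + 1 = ((st x - st x0) * 2 ^ t + l) / l := by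
            rw [Nat.add_div_right _ hl]
        _ ≤ _ := Nat.div_le_div_right (by omega)
    omega
  rcases lt_trichotomy (st x) (st y) with h | h | h
  · exact aux x hx y hy h he
  · exact hxy (hinj0 x hx y hy h)
  · exact aux y hy x hx h he.symm

/-- the nonempty blocks which are not repeated -/
lemma blocks {A : Set ℕ} {u Q l t P : ℕ} (hl : 0 < l)
    (hr : ∀ n, rp A u (Q * l) n < 2 ^ (t + 1))
    (hp : ∀ X : Finset ℕ, (X.image (fac A (2 * l))).card ≤ P * (2 * l)) (D : Finset ℕ)
    (hD : ∀ i ∈ D, i < Q ∧ (el A (u + i * l) l).Nonempty ∧ ¬ Repd A u (Q * l) (u + i * l) l) :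
    D.card ≤ 2 ^ (t + 1) * P + 2 := by
  classical
  set D' := D.filter (fun i => 0 < i ∧ i + 1 < Q) with hD'
  have h1 : D ⊆ D' ∪ {0, Q - 1} := by
    intro i hi
    have := (hD i hi).1
    simp only [hD', mem_union, mem_filter, mem_insert, mem_singleton]
    by_cases h : 0 < i ∧ i + 1 < Q
    · exact Or.inl ⟨hi, h⟩
    · right
      omega
  have h2 : D.card ≤ D'.card + 2 := by
    refine (card_le_card h1).trans ((card_union_le _ _).trans ?_)
    have : ({0, Q - 1} : Finset ℕ).card ≤ 2 := card_le_two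
    omega
  -- pairs
  set φ : ℕ × ℕ → Finset ℕ := fun x => fac A (2 * l) (u + x.1 * l - x.2) with hφ
  have h3 : (D' ×ˢ range l).card ≤ 2 ^ t * ((D' ×ˢ range l).image φ).card := by
    apply card_le_mul_card_image
    intro f _
    refine fiber (A := A) (u := u) (Q := Q) (l := l) (t := t) hl hr _ f ?_
    intro x hx
    simp only [mem_filter, mem_product, hD', mem_range, hφ] at hx
    obtain ⟨⟨⟨h4, h5⟩, h6⟩, h7⟩ := hx
    obtain ⟨h8, h9, h10⟩ := hD x.1 h4
    exact ⟨h5.1, h5.2, h6, h9, h10, h7⟩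
  have h4 : ((D' ×ˢ range l).image φ).card ≤ P * (2 * l) := by
    have : (D' ×ˢ range l).image φ =
        ((D' ×ˢ range l).image (fun x => u + x.1 * l - x.2)).image (fac A (2 * l)) := by
      rw [image_image]
      rfl
    rw [this]
    exact hp _
  rw [card_product, card_range] at h3
  have h5 : D'.card * l ≤ (2 ^ (t + 1) * P) * l := by
    refine h3.trans ((Nat.mul_le_mul_left _ h4).trans (le_of_eq ?_))
    rw [pow_succ]
    ring
  have h6 := Nat.le_of_mul_le_mul_right h5 hl
  omega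

/-- one step: if repeated blocks have at most `B` elements, the window has at most
`m * (2 * K) * B` elements -/
lemma step {A : Set ℕ} {u m t P B : ℕ}
    (hr : ∀ n, rp A u (2 ^ m) n < 2 ^ (t + 1))
    (hp : ∀ L, 1 ≤ L → L ≤ 2 ^ m → ∀ X : Finset ℕ, (X.image (fac A L)).card ≤ P * L)
    (hB : ∀ v e, e ≤ m → u ≤ v → v + 2 ^ e ≤ u + 2 ^ m → Repd A u (2 ^ m) v (2 ^ e) →
      (el A v (2 ^ e)).card ≤ B) :
    (el A u (2 ^ m)).card ≤ 1 + m * ((2 ^ (t + 1) * P + 2) * 2 * B) := by
  classical
  set blk : ℕ → ℕ → ℕ := fun e a => u + (a - u) / 2 ^ e * 2 ^ e with hblk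
  set E : ℕ → Finset ℕ := fun e =>
    (el A u (2 ^ m)).filter (fun a => ¬ Repd A u (2 ^ m) (blk e a) (2 ^ e)) with hE
  have hmemE : ∀ e a, a ∈ E e ↔ (u ≤ a ∧ a < u + 2 ^ m ∧ a ∈ A) ∧
      ¬ Repd A u (2 ^ m) (blk e a) (2 ^ e) := by
    intro e a
    simp only [hE, mem_filter, mem_el]
  have hpos : ∀ e : ℕ, 0 < 2 ^ e := fun e => by positivity
  -- the top level
  have htop : E m = el A u (2 ^ m) := by
    ext a
    rw [hmemE, mem_el]
    constructor
    · rintro ⟨h, _⟩; exact h
    · intro h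
      refine ⟨h, ?_⟩
      rintro ⟨w, hw1, hw2, hw3, _⟩
      have h1 : (a - u) / 2 ^ m = 0 := Nat.div_eq_of_lt (by omega)
      have h2 : blk m a = u := by simp only [hblk, h1]; omega
      rw [h2] at hw3
      have := hpos m
      omega
  -- the bottom level
  have hbot : (E 0).card ≤ 1 := by
    rw [card_le_one]
    intro a ha b hb
    by_contra hab
    rw [hmemE] at ha hb
    apply ha.2
    have h1 : blk 0 a = a := by
      simp only [hblk, pow_zero, Nat.div_one, mul_one]
      omega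
    rw [h1]
    refine ⟨b, hb.1.1, by simp only [pow_zero]; omega, by simp only [pow_zero]; omega, ?_⟩
    intro i hi
    simp only [pow_zero, Nat.lt_one_iff] at hi
    subst hi
    simp only [add_zero]
    exact ⟨fun _ => hb.1.2.2, fun _ => ha.1.2.2⟩
  -- the step
  have hstep : ∀ e, e < m → (E (e + 1)).card ≤ (E e).card + (2 ^ (t + 1) * P + 2) * 2 * B := by
    intro e he
    set F := (E (e + 1)).filter (fun a => Repd A u (2 ^ m) (blk e a) (2 ^ e)) with hF
    have h1 : E (e + 1) ⊆ E e ∪ F := by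
      intro a ha
      rw [mem_union]
      by_cases h : Repd A u (2 ^ m) (blk e a) (2 ^ e)
      · right
        exact mem_filter.2 ⟨ha, h⟩
      · left
        rw [hmemE]
        exact ⟨((hmemE _ _).1 ha).1, h⟩
    have h2 : (E (e + 1)).card ≤ (E e).card + F.card :=
      (card_le_card h1).trans (card_union_le _ _)
    refine h2.trans (Nat.add_le_add_left ?_ _)
    -- the blocks at level `e + 1`
    set Q := 2 ^ (m - (e + 1)) with hQ
    have hQl : Q * 2 ^ (e + 1) = 2 ^ m := by
      rw [hQ, ← pow_add]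
      congr 1
      omega
    set D := (E (e + 1)).image (fun a => (a - u) / 2 ^ (e + 1)) with hD
    have hDi : ∀ i ∈ D, i < Q ∧ (el A (u + i * 2 ^ (e + 1)) (2 ^ (e + 1))).Nonempty ∧
        ¬ Repd A u (Q * 2 ^ (e + 1)) (u + i * 2 ^ (e + 1)) (2 ^ (e + 1)) := by
      intro i hi
      obtain ⟨a, ha, rfl⟩ := mem_image.1 hi
      rw [hmemE] at ha
      obtain ⟨⟨h3, h4, h5⟩, h6⟩ := ha
      have h7 : (a - u) / 2 ^ (e + 1) * 2 ^ (e + 1) ≤ a - u := Nat.div_mul_le_self _ _
      have h8 : a - u < ((a - u) / 2 ^ (e + 1)) * 2 ^ (e + 1) + 2 ^ (e + 1) := by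
        have := Nat.lt_mul_div_succ (a - u) (hpos (e + 1))
        rw [mul_comm, Nat.add_mul, one_mul] at this
        exact this
      refine ⟨?_, ⟨a, ?_⟩, ?_⟩
      · rw [Nat.div_lt_iff_lt_mul (hpos _), hQl]
        omega
      · rw [mem_el]
        refine ⟨by omega, by omega, h5⟩
      · rw [hQl]
        exact h6
    have hDc : D.card ≤ 2 ^ (t + 1) * P + 2 := by
      rcases Nat.lt_or_ge m (e + 2) with hlt | hge
      · have hQ1 : Q = 1 := by
          rw [hQ, show m - (e + 1) = 0 by omega, pow_zero]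
        have : D ⊆ {0} := by
          intro i hi
          have := (hDi i hi).1
          rw [mem_singleton]
          omega
        have := card_le_card this
        rw [card_singleton] at this
        omega
      · refine blocks (A := A) (u := u) (Q := Q) (l := 2 ^ (e + 1)) (hpos _) ?_ ?_ D hDi
        · intro n
          rw [hQl]
          exact hr n
        · intro X
          refine hp _ ?_ ?_ X
          · have := hpos (e + 1)
            omega
          · rw [← pow_succ']
            exact Nat.pow_le_pow_right (by norm_num) hge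
    -- the map to the blocks at level `e`
    have h3 : F.card ≤ B * (F.image (fun a => (a - u) / 2 ^ e)).card := by
      apply card_le_mul_card_image
      intro i hi
      obtain ⟨a, ha, rfl⟩ := mem_image.1 hi
      have ha2 := mem_filter.1 ha
      have ha3 := (hmemE _ _).1 ha2.1
      have h7 : (a - u) / 2 ^ e * 2 ^ e ≤ a - u := Nat.div_mul_le_self _ _
      have h8 : (a - u) / 2 ^ e * 2 ^ e + 2 ^ e ≤ 2 ^ m := by
        have h9 : (a - u) / 2 ^ e < 2 ^ (m - e) := by
          rw [Nat.div_lt_iff_lt_mul (hpos _), ← pow_add, show m - e + e = m by omega]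
          omega
        calc (a - u) / 2 ^ e * 2 ^ e + 2 ^ e = ((a - u) / 2 ^ e + 1) * 2 ^ e := by ring
          _ ≤ 2 ^ (m - e) * 2 ^ e := Nat.mul_le_mul_right _ h9
          _ = 2 ^ m := by rw [← pow_add, show m - e + e = m by omega]
      refine le_trans (card_le_card ?_) (hB (blk e a) e he.le (by simp only [hblk]; omega)
        (by simp only [hblk]; omega) ha2.2)
      intro b hb
      obtain ⟨hb1, hb2⟩ := mem_filter.1 hb
      have hb3 := (hmemE _ _).1 (mem_filter.1 hb1).1
      rw [mem_el]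
      have h10 : (b - u) / 2 ^ e * 2 ^ e ≤ b - u := Nat.div_mul_le_self _ _
      have h11 : b - u < ((b - u) / 2 ^ e) * 2 ^ e + 2 ^ e := by
        have := Nat.lt_mul_div_succ (b - u) (hpos e)
        rw [mul_comm, Nat.add_mul, one_mul] at this
        exact this
      simp only [hblk]
      rw [← hb2]
      refine ⟨by omega, by omega, hb3.1.2.2⟩
    have h4 : (F.image (fun a => (a - u) / 2 ^ e)).card ≤ (2 ^ (t + 1) * P + 2) * 2 := by
      have h5 : F.image (fun a => (a - u) / 2 ^ e) ⊆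
          (D ×ˢ range 2).image (fun x => 2 * x.1 + x.2) := by
        intro i hi
        obtain ⟨a, ha, rfl⟩ := mem_image.1 hi
        refine mem_image.2 ⟨((a - u) / 2 ^ (e + 1), (a - u) / 2 ^ e % 2), ?_, ?_⟩
        · rw [mem_product, mem_range]
          exact ⟨mem_image_of_mem _ (mem_filter.1 ha).1, Nat.mod_lt _ (by norm_num)⟩
        · simp only
          rw [pow_succ, ← Nat.div_div_eq_div_mul]
          omega
      refine (card_le_card h5).trans (card_image_le.trans ?_)
      rw [card_product, card_range]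
      exact Nat.mul_le_mul_right _ hDc
    calc F.card ≤ B * (F.image (fun a => (a - u) / 2 ^ e)).card := h3
      _ ≤ B * ((2 ^ (t + 1) * P + 2) * 2) := Nat.mul_le_mul_left _ h4
      _ = _ := by ring
  have hall : ∀ e, e ≤ m → (E e).card ≤ 1 + e * ((2 ^ (t + 1) * P + 2) * 2 * B) := by
    intro e
    induction e with
    | zero => intro _; simpa using hbot
    | succ e ih =>
      intro he
      have h1 := ih (by omega)
      have h2 := hstep e (by omega)
      have h3 : (e + 1) * ((2 ^ (t + 1) * P + 2) * 2 * B) =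
        e * ((2 ^ (t + 1) * P + 2) * 2 * B) + (2 ^ (t + 1) * P + 2) * 2 * B := by ring
      omega
  have := hall m le_rfl
  rw [htop] at this
  exact this

/-- **The inequality** (windows). -/
theorem window (A : Set ℕ) (P m0 : ℕ) (hP : 1 ≤ P)
    (hp : ∀ L, 1 ≤ L → L ≤ 2 ^ m0 → ∀ X : Finset ℕ, (X.image (fac A L)).card ≤ P * L) :
    ∀ t m u, m ≤ m0 → (∀ n, rp A u (2 ^ m) n < 2 ^ (t + 1)) →
      (el A u (2 ^ m)).card ≤ (2 ^ (t + 4) * P * (m0 + 1)) ^ t := by
  classical
  intro t
  induction t with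
  | zero =>
    intro m u hm hr
    rw [pow_zero, card_le_one]
    intro a ha b hb
    by_contra hab
    rw [mem_el] at ha hb
    have h1 := hr (a + b)
    have h2 : ({(a, b), (b, a)} : Finset (ℕ × ℕ)).card = 2 := by
      rw [card_pair]
      intro h
      rw [Prod.mk.injEq] at h
      exact hab h.1
    have h3 : ({(a, b), (b, a)} : Finset (ℕ × ℕ)).card ≤ rp A u (2 ^ m) (a + b) := by
      apply card_le_card
      intro x hx
      rw [mem_insert, mem_singleton] at hx
      simp only [mem_filter, mem_product, mem_Ico]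
      rcases hx with rfl | rfl
      · exact ⟨⟨⟨ha.1, ha.2.1⟩, hb.1, hb.2.1⟩, ha.2.2, hb.2.2, rfl⟩
      · exact ⟨⟨⟨hb.1, hb.2.1⟩, ha.1, ha.2.1⟩, hb.2.2, ha.2.2, add_comm _ _⟩
    omega
  | succ t ih =>
    intro m u hm hr
    set B := (2 ^ (t + 4) * P * (m0 + 1)) ^ t with hB
    have h2m : 2 ^ m ≤ 2 ^ m0 := Nat.pow_le_pow_right (by norm_num) hm
    have h1 := step (A := A) (u := u) (m := m) (t := t + 1) (P := P) (B := B) hr
      (fun L h1 h2 => hp L h1 (h2.trans h2m)) (by
        intro v e he huv hve hrep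
        refine ih e v (he.trans hm) ?_
        intro n
        obtain ⟨n', hn'⟩ := double huv hve hrep n
        have := hr n'
        rw [pow_succ] at this
        omega)
    have hBpos : 1 ≤ B := Nat.one_le_pow _ _ (by positivity)
    have h3 : B ≤ (2 ^ (t + 1 + 4) * P * (m0 + 1)) ^ t := by
      apply Nat.pow_le_pow_left
      apply Nat.mul_le_mul_right
      apply Nat.mul_le_mul_right
      exact Nat.pow_le_pow_right (by norm_num) (by omega)
    have h4 : 2 ^ (t + 1 + 1) * P + 2 ≤ 2 ^ (t + 3) * P := by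
      have h5 : 2 ^ (t + 3) * P = 2 ^ (t + 1 + 1) * P + 2 ^ (t + 1 + 1) * P := by
        rw [show t + 3 = t + 1 + 1 + 1 by omega, pow_succ]
        ring
      have h6 : 2 ≤ 2 ^ (t + 1 + 1) * P := by
        calc 2 = 2 ^ 1 * 1 := by norm_num
          _ ≤ 2 ^ (t + 1 + 1) * P :=
            Nat.mul_le_mul (Nat.pow_le_pow_right (by norm_num) (by omega)) hP
      omega
    calc (el A u (2 ^ m)).card ≤ 1 + m * ((2 ^ (t + 1 + 1) * P + 2) * 2 * B) := h1
      _ ≤ B + m * ((2 ^ (t + 3) * P) * 2 * B) := by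
          gcongr
      _ ≤ 2 ^ (t + 4) * P * B + m0 * (2 ^ (t + 4) * P * B) := by
          have h7 : B ≤ 2 ^ (t + 4) * P * B := by
            apply Nat.le_mul_of_pos_left
            positivity
          have h8 : (2 ^ (t + 3) * P) * 2 * B = 2 ^ (t + 4) * P * B := by
            rw [show t + 4 = t + 3 + 1 by omega, pow_succ]
            ring
          rw [h8]
          gcongr
      _ = (2 ^ (t + 4) * P * (m0 + 1)) * B := by ring
      _ ≤ (2 ^ (t + 1 + 4) * P * (m0 + 1)) * (2 ^ (t + 1 + 4) * P * (m0 + 1)) ^ t := by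
          apply Nat.mul_le_mul _ h3
          apply Nat.mul_le_mul_right
          apply Nat.mul_le_mul_right
          exact Nat.pow_le_pow_right (by norm_num) (by omega)
      _ = _ := by rw [pow_succ]; ring

/-- the representation function -/
noncomputable def rep (A : Set ℕ) (n : ℕ) : ℕ :=
  {p : ℕ × ℕ | p.1 ∈ A ∧ p.2 ∈ A ∧ p.1 + p.2 = n}.ncard

/-- the factor complexity -/
noncomputable def complexity (A : Set ℕ) (L : ℕ) : ℕ :=
  (Set.range (fun s : ℕ => {i : Fin L | s + (i : ℕ) ∈ A})).ncard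

lemma rep_finite (A : Set ℕ) (n : ℕ) :
    {p : ℕ × ℕ | p.1 ∈ A ∧ p.2 ∈ A ∧ p.1 + p.2 = n}.Finite :=
  (antidiagonal n).finite_toSet.subset fun _ hp => mem_coe.2 (mem_antidiagonal.2 hp.2.2)

lemma rp_le_rep (A : Set ℕ) (u N n : ℕ) : rp A u N n ≤ rep A n := by
  classical
  unfold rp rep
  rw [← Set.ncard_coe_finset]
  refine Set.ncard_le_ncard ?_ (rep_finite A n)
  intro x hx
  rw [mem_coe, mem_filter] at hx
  exact hx.2

lemma image_fac_le (A : Set ℕ) (L : ℕ) (X : Finset ℕ) :
    (X.image (fac A L)).card ≤ complexity A L := by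
  classical
  unfold complexity
  have hfin : (Set.range (fun s : ℕ => {i : Fin L | s + (i : ℕ) ∈ A})).Finite := Set.toFinite _
  set G : Set (Fin L) → Finset ℕ := fun S => (univ.filter (fun i => i ∈ S)).image
    (fun i : Fin L => (i : ℕ)) with hG
  have h1 : ∀ s, fac A L s = G {i : Fin L | s + (i : ℕ) ∈ A} := by
    intro s
    ext j
    simp only [hG, mem_fac, mem_image, mem_filter, mem_univ, true_and, Set.mem_ofPred_eq]
    constructor
    · rintro ⟨h1, h2⟩
      exact ⟨⟨j, h1⟩, h2, rfl⟩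
    · rintro ⟨i, h1, rfl⟩
      exact ⟨i.2, h1⟩
  have h2 : ((X.image (fac A L) : Finset (Finset ℕ)) : Set (Finset ℕ)) ⊆
      G '' (Set.range (fun s : ℕ => {i : Fin L | s + (i : ℕ) ∈ A})) := by
    intro f hf
    rw [mem_coe, mem_image] at hf
    obtain ⟨s, _, rfl⟩ := hf
    exact ⟨_, ⟨s, rfl⟩, (h1 s).symm⟩
  rw [← Set.ncard_coe_finset]
  exact (Set.ncard_le_ncard h2 (hfin.image G)).trans (Set.ncard_image_le hfin)

/-- **The inequality.** -/
theorem ineq (A : Set ℕ) (t m P : ℕ) (hP : 1 ≤ P) (hr : ∀ n, rep A n < 2 ^ (t + 1))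
    (hp : ∀ L, 1 ≤ L → L ≤ 2 ^ m → complexity A L ≤ P * L) :
    (A ∩ Set.Iio (2 ^ m)).ncard ≤ (2 ^ (t + 4) * P * (m + 1)) ^ t := by
  classical
  have h1 := window A P m hP (fun L h1 h2 X => (image_fac_le A L X).trans (hp L h1 h2)) t m 0
    le_rfl (fun n => lt_of_le_of_lt (rp_le_rep A 0 _ n) (hr n))
  have h2 : A ∩ Set.Iio (2 ^ m) = (el A 0 (2 ^ m) : Set ℕ) := by
    ext a
    rw [mem_coe, mem_el]
    simp only [Set.mem_inter_iff, Set.mem_Iio]
    constructor
    · rintro ⟨h3, h4⟩; exact ⟨Nat.zero_le _, by omega, h3⟩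
    · rintro ⟨_, h3, h4⟩; exact ⟨h4, by omega⟩
  rw [h2, Set.ncard_coe_finset]
  exact h1

end Pool.Agent.Helper76.FX
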