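import Mathlib

/-!
# Finite Sidon sets (Erdős and Turán)
-/

set_option autoImplicit false

open Finset

namespace Pool.Agent.Helper76.FX

theorem exists_sidon (h : ℕ) (hh : 1 ≤ h) : ∃ S : Finset ℕ, 0 ∈ S ∧ (∀ s ∈ S, s < h) ∧
    (∀ a ∈ S, ∀ b ∈ S, ∀ c ∈ S, ∀ d ∈ S, a + b = c + d → (a = c ∧ b = d) ∨ (a = d ∧ b = c)) ∧
    h ≤ 32 * S.card ^ 2 := by
  classical
  rcases Nat.lt_or_ge 32 h with hlt | hge
  swap
  · refine ⟨{0}, by simp, ?_, ?_, ?_⟩
    · intro s hs
      rw [mem_singleton] at hs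
      omega
    · intro a ha b hb c hc d hd _
      rw [mem_singleton] at ha hb hc hd
      subst ha hb hc hd
      simp
    · simpa using hge
  set n := Nat.sqrt (h / 8) with hn
  have hn2 : 2 ≤ n := by
    rw [hn, Nat.le_sqrt]
    omega
  obtain ⟨p, hp, hnp, hp2⟩ := Nat.exists_prime_lt_and_le_two_mul n (by omega)
  have hnn : n * n ≤ h / 8 := Nat.sqrt_le _
  have hn1 : h / 8 < (n + 1) * (n + 1) := Nat.lt_succ_sqrt _
  have hpp : 2 * (p * p) ≤ h := by
    have : p * p ≤ (2 * n) * (2 * n) := Nat.mul_le_mul hp2 hp2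
    have h2 : (2 * n) * (2 * n) = 4 * (n * n) := by ring
    omega
  have hp0 : 0 < p := hp.pos
  set f : ℕ → ℕ := fun x => 2 * p * x + x ^ 2 % p with hf
  have hr : ∀ x, x ^ 2 % p < p := fun x => Nat.mod_lt _ hp0
  have hsplit : ∀ x y z w, f x + f y = f z + f w →
      x + y = z + w ∧ x ^ 2 % p + y ^ 2 % p = z ^ 2 % p + w ^ 2 % p := by
    intro x y z w hxy
    simp only [hf] at hxy
    have h1 := hr x
    have h2 := hr y
    have h3 := hr z
    have h4 := hr w
    have h5 : (2 * p) * (x + y) + (x ^ 2 % p + y ^ 2 % p) =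
        (2 * p) * (z + w) + (z ^ 2 % p + w ^ 2 % p) := by
      rw [Nat.mul_add, Nat.mul_add]
      omega
    have h6 : x + y = z + w := by
      have e1 : ((2 * p) * (x + y) + (x ^ 2 % p + y ^ 2 % p)) / (2 * p) = x + y := by
        rw [Nat.mul_add_div (by omega), Nat.div_eq_of_lt (by omega), add_zero]
      have e2 : ((2 * p) * (z + w) + (z ^ 2 % p + w ^ 2 % p)) / (2 * p) = z + w := by
        rw [Nat.mul_add_div (by omega), Nat.div_eq_of_lt (by omega), add_zero]
      rw [← e1, ← e2, h5]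
    rw [h6] at h5
    exact ⟨h6, by omega⟩
  have hsid : ∀ x < p, ∀ y < p, ∀ z < p, ∀ w < p, f x + f y = f z + f w →
      (x = z ∧ y = w) ∨ (x = w ∧ y = z) := by
    intro x hx y hy z hz w hw hxy
    obtain ⟨h1, h2⟩ := hsplit x y z w hxy
    have : Fact p.Prime := ⟨hp⟩
    have h3 : ((x ^ 2 % p + y ^ 2 % p : ℕ) : ZMod p) = ((z ^ 2 % p + w ^ 2 % p : ℕ) : ZMod p) := by
      rw [h2]
    push_cast [ZMod.natCast_mod] at h3
    have h3' : (x : ZMod p) ^ 2 + (y : ZMod p) ^ 2 = (z : ZMod p) ^ 2 + (w : ZMod p) ^ 2 := by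
      simpa [ZMod.natCast_mod] using h3
    have h4 : (x : ZMod p) + y = z + w := by
      have : ((x + y : ℕ) : ZMod p) = ((z + w : ℕ) : ZMod p) := by rw [h1]
      push_cast at this
      exact this
    have h5 : (2 : ZMod p) * (((x : ZMod p) - z) * ((x : ZMod p) - w)) = 0 := by
      linear_combination (2 * (x : ZMod p) - (x + y) - (z + w)) * h4 - (-1) * h3' + 
        (0 : ZMod p) * h4
    have h2ne : (2 : ZMod p) ≠ 0 := by
      intro h6
      have h7 : ((2 : ℕ) : ZMod p) = 0 := by exact_mod_cast h6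
      rw [ZMod.natCast_eq_zero_iff] at h7
      have := Nat.le_of_dvd (by norm_num) h7
      omega
    have hcast : ∀ a < p, ∀ b < p, (a : ZMod p) - b = 0 → a = b := by
      intro a ha b hb hab
      have h8 : (a : ZMod p) = b := sub_eq_zero.1 hab
      rw [ZMod.natCast_eq_natCast_iff'] at h8
      rwa [Nat.mod_eq_of_lt ha, Nat.mod_eq_of_lt hb] at h8
    rcases mul_eq_zero.1 h5 with h6 | h6
    · exact absurd h6 h2ne
    · rcases mul_eq_zero.1 h6 with h7 | h7
      · have := hcast x hx z hz h7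
        left
        omega
      · have := hcast x hx w hw h7
        right
        omega
  have hinj : Set.InjOn f (range p : Set ℕ) := by
    intro x hx y hy hxy
    rw [mem_coe, mem_range] at hx hy
    have := hsid x hx x hx y hy y hy (by rw [hxy])
    omega
  refine ⟨(range p).image f, ?_, ?_, ?_, ?_⟩
  · refine mem_image.2 ⟨0, mem_range.2 hp0, ?_⟩
    simp [hf]
  · intro s hs
    obtain ⟨x, hx, rfl⟩ := mem_image.1 hs
    rw [mem_range] at hx
    have h1 := hr x
    simp only [hf]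
    have h2 : 2 * p * x + 2 * p ≤ 2 * (p * p) := by
      calc 2 * p * x + 2 * p = 2 * p * (x + 1) := by ring
        _ ≤ 2 * p * p := Nat.mul_le_mul_left _ hx
        _ = _ := by ring
    omega
  · intro a ha b hb c hc d hd habcd
    obtain ⟨x, hx, rfl⟩ := mem_image.1 ha
    obtain ⟨y, hy, rfl⟩ := mem_image.1 hb
    obtain ⟨z, hz, rfl⟩ := mem_image.1 hc
    obtain ⟨w, hw, rfl⟩ := mem_image.1 hd
    rw [mem_range] at hx hy hz hw
    rcases hsid x hx y hy z hz w hw habcd with h1 | h1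
    · left
      rw [h1.1, h1.2]
      exact ⟨rfl, rfl⟩
    · right
      rw [h1.1, h1.2]
      exact ⟨rfl, rfl⟩
  · rw [card_image_of_injOn hinj, card_range]
    have h1 : (n + 1) * (n + 1) ≤ p * p := Nat.mul_le_mul hnp hnp
    rw [pow_two]
    omega

end Pool.Agent.Helper76.FX
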