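import Pool.Agent.Helper76.FX.Digits
import Pool.Agent.Helper76.FX.Sidon

/-!
# Thresholds by factor complexity
-/

set_option autoImplicit false

open Filter Finset

namespace Pool.Agent.Helper76.FX

/-- `|A ∩ [1, N]| ≫ √N / g(N)` -/
def Dense (g : ℕ → ℝ) (A : Set ℕ) : Prop :=
  ∃ C : ℝ, 0 < C ∧ ∀ᶠ N : ℕ in atTop, Real.sqrt N / g N ≤ C * ((A ∩ Set.Icc 1 N).ncard : ℝ)

/-- `g` forces unbounded representations inside the class `𝒞` -/
def ForcesIn (𝒞 : Set ℕ → Prop) (g : ℕ → ℝ) : Prop :=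
  ∀ A : Set ℕ, 𝒞 A → Dense g A → ∀ K : ℕ, ∃ n, K < rep A n

/-- linear factor complexity -/
def Linear (A : Set ℕ) : Prop := ∃ C : ℕ, ∀ L, 1 ≤ L → complexity A L ≤ C * L

lemma one_le_log {N : ℕ} (hN : 3 ≤ N) : 1 ≤ Real.log N := by
  rw [Real.le_log_iff_exp_le (by positivity)]
  have h1 : (3 : ℝ) ≤ N := by exact_mod_cast hN
  linarith [Real.exp_one_lt_d9]

theorem ineq_log (A : Set ℕ) (t N P : ℕ) (hP : 1 ≤ P) (hN : 3 ≤ N)
    (hr : ∀ n, rep A n < 2 ^ (t + 1))
    (hp : ∀ L, 1 ≤ L → L ≤ 2 * N → complexity A L ≤ P * L) :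
    ((A ∩ Set.Icc 1 N).ncard : ℝ) ≤ (2 ^ (t + 6) * P * Real.log N) ^ t := by
  set m := Nat.log 2 N + 1 with hm
  have h1 : N < 2 ^ m := Nat.lt_pow_succ_log_self (by norm_num) N
  have h2 : 2 ^ m ≤ 2 * N := by
    rw [hm, pow_succ]
    have := Nat.pow_log_le_self 2 (x := N) (by omega)
    omega
  have h3 := ineq A t m P hP hr (fun L hL hL2 => hp L hL (hL2.trans h2))
  have h4 : (A ∩ Set.Icc 1 N).ncard ≤ (A ∩ Set.Iio (2 ^ m)).ncard := by
    refine Set.ncard_le_ncard ?_ ((Set.finite_Iio _).subset Set.inter_subset_right)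
    rintro x ⟨hx1, hx2⟩
    exact ⟨hx1, lt_of_le_of_lt hx2.2 h1⟩
  have h5 : ((A ∩ Set.Icc 1 N).ncard : ℝ) ≤ (2 ^ (t + 4) * P * (m + 1)) ^ t := by
    exact_mod_cast h4.trans h3
  refine h5.trans ?_
  have hlog := one_le_log hN
  have h6 : ((Nat.log 2 N : ℕ) : ℝ) ≤ 2 * Real.log N := by
    have h7 : (2 : ℝ) ^ (Nat.log 2 N) ≤ N := by
      exact_mod_cast Nat.pow_log_le_self 2 (x := N) (by omega)
    have h8 := Real.log_le_log (by positivity) h7
    rw [Real.log_pow] at h8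
    have h9 : (1 / 2 : ℝ) ≤ Real.log 2 := by
      have := Real.log_two_gt_d9
      linarith
    have h10 : (0 : ℝ) ≤ (Nat.log 2 N : ℕ) := Nat.cast_nonneg _
    nlinarith
  have h7 : ((m : ℝ) + 1) ≤ 4 * Real.log N := by
    rw [hm]
    push_cast
    linarith
  apply pow_le_pow_left₀ (by positivity)
  calc (2 : ℝ) ^ (t + 4) * P * (m + 1) ≤ 2 ^ (t + 4) * P * (4 * Real.log N) := by gcongr
    _ = 2 ^ (t + 6) * P * Real.log N := by
      rw [show t + 6 = t + 4 + 2 by omega, pow_add _ (t + 4) 2]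
      ring

/-! ## Linear complexity -/

theorem linear_upper {A : Set ℕ} {R : ℕ} (hA : Linear A) (hr : ∀ n, rep A n ≤ R) :
    ∃ C : ℝ, 0 < C ∧ ∀ᶠ N : ℕ in atTop,
      ((A ∩ Set.Icc 1 N).ncard : ℝ) ≤ C * Real.log N ^ (Nat.log 2 R) := by
  obtain ⟨P, hP⟩ := hA
  refine ⟨(2 ^ (Nat.log 2 R + 6) * ((P + 1 : ℕ) : ℝ)) ^ (Nat.log 2 R), by positivity, ?_⟩
  filter_upwards [eventually_ge_atTop 3] with N hN
  have h1 := ineq_log A (Nat.log 2 R) N (P + 1) (by omega) hN
    (fun n => lt_of_le_of_lt (hr n) (Nat.lt_pow_succ_log_self (by norm_num) R))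
    (fun L hL _ => (hP L hL).trans (Nat.mul_le_mul_right _ (by omega)))
  rw [mul_pow] at h1
  exact h1

/-- the elements up to `N` except zero -/
lemma count_Icc {A : Set ℕ} {M N : ℕ} (h : M ≤ N + 1) :
    (A ∩ Set.Iio M).ncard ≤ (A ∩ Set.Icc 1 N).ncard + 1 := by
  have h1 : A ∩ Set.Iio M ⊆ insert 0 (A ∩ Set.Icc 1 N) := by
    rintro x ⟨hx1, hx2⟩
    rw [Set.mem_Iio] at hx2
    rcases Nat.eq_zero_or_pos x with h0 | h0
    · left; exact h0
    · right
      exact ⟨hx1, h0, by omega⟩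
  have hfin : (A ∩ Set.Icc 1 N).Finite := (Set.finite_Icc 1 N).subset Set.inter_subset_right
  exact (Set.ncard_le_ncard h1 (hfin.insert 0)).trans (Set.ncard_insert_le _ _)

theorem linear_dset (k : ℕ) (hk : 1 ≤ k) : Linear (dset (fun _ => 4) (fun _ => {0, 1}) k) := by
  refine ⟨4 ^ (k + 2), ?_⟩
  intro L hL
  set l := Nat.log 4 L + 1 with hl
  have h1 : L < 4 ^ l := Nat.lt_pow_succ_log_self (by norm_num) L
  have h2 : 4 ^ l ≤ 4 * L := by
    rw [hl, pow_succ]
    have := Nat.pow_log_le_self 4 (x := L) (by omega)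
    omega
  have h3 := complexity_dset good_four hk (l := l) (L := L) (by rw [wt_four]; exact h1.le)
  rw [wt_four] at h3
  refine h3.trans ((Nat.mul_le_mul_left _ h2).trans (le_of_eq ?_))
  rw [pow_succ 4 (k + 1)]
  ring

theorem linear_lower (k : ℕ) (hk : 1 ≤ k) :
    ∃ c : ℝ, 0 < c ∧ ∀ᶠ N : ℕ in atTop, c * Real.log N ^ k ≤
      ((dset (fun _ => 4) (fun _ => {0, 1}) k ∩ Set.Icc 1 N).ncard : ℝ) := by
  refine ⟨(1 / (8 * k)) ^ k / 2, by positivity, ?_⟩
  filter_upwards [eventually_ge_atTop (4 ^ (4 * k))] with N hN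
  have hN0 : 0 < N := lt_of_lt_of_le (by positivity) hN
  -- `J` with `4 ^ (k J) ≤ N`
  set J := Nat.log 4 N / k with hJ
  have hlog4 : 4 * k ≤ Nat.log 4 N := by
    rw [Nat.le_log_iff_pow_le (by norm_num) (by omega)]
    exact hN
  have hJ4 : 4 ≤ J := by
    rw [hJ, Nat.le_div_iff_mul_le (by omega)]
    exact hlog4
  have h1 : 4 ^ (k * J) ≤ N := by
    refine le_trans (Nat.pow_le_pow_right (by norm_num) ?_) (Nat.pow_log_le_self 4 (by omega))
    rw [hJ]
    exact Nat.mul_div_le _ _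
  have h2 := count_four hk J
  have h3 := count_Icc (A := dset (fun _ => 4) (fun _ => {0, 1}) k) (M := 4 ^ (k * J)) (N := N)
    (by omega)
  have h4 : ((J : ℝ)) ^ k ≤
      ((dset (fun _ => 4) (fun _ => {0, 1}) k ∩ Set.Icc 1 N).ncard : ℝ) + 1 := by
    exact_mod_cast h2.trans h3
  -- `log N ≤ 8 k J`
  have h5 : Nat.log 4 N < k * J + k := by
    have := Nat.lt_mul_div_succ (Nat.log 4 N) (show 0 < k by omega)
    rw [← hJ, Nat.mul_add, mul_one] at this
    exact this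
  have h6 : N < 4 ^ (k * J + k) :=
    lt_of_lt_of_le (Nat.lt_pow_succ_log_self (by norm_num) N)
      (Nat.pow_le_pow_right (by norm_num) h5)
  have h7 : Real.log N ≤ 4 * k * J := by
    have h8 : (N : ℝ) ≤ 4 ^ (k * J + k) := by exact_mod_cast h6.le
    have h9 := Real.log_le_log (by positivity) h8
    rw [Real.log_pow] at h9
    have h10 : Real.log 4 ≤ 2 := by
      rw [show (4 : ℝ) = 2 ^ 2 by norm_num, Real.log_pow]
      have := Real.log_two_lt_d9
      push_cast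
      linarith
    have h11 : ((k * J + k : ℕ) : ℝ) ≤ 2 * k * J := by
      have : k * J + k ≤ 2 * k * J := by nlinarith
      exact_mod_cast this
    have h12 : (0 : ℝ) ≤ ((k * J + k : ℕ) : ℝ) := Nat.cast_nonneg _
    calc Real.log N ≤ ((k * J + k : ℕ) : ℝ) * Real.log 4 := h9
      _ ≤ (2 * k * J) * 2 := by gcongr
      _ = _ := by ring
  have hlogN : 0 ≤ Real.log N := Real.log_natCast_nonneg N
  have hk0 : (0 : ℝ) < k := by exact_mod_cast hk
  have h8 : (1 / (8 * (k : ℝ))) * Real.log N ≤ J / 2 := by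
    rw [div_mul_eq_mul_div, one_mul, div_le_div_iff₀ (by positivity) (by norm_num)]
    nlinarith
  have h9 : ((1 / (8 * (k : ℝ))) * Real.log N) ^ k ≤ (J / 2 : ℝ) ^ k :=
    pow_le_pow_left₀ (by positivity) h8 k
  have h10 : (J / 2 : ℝ) ^ k ≤ (J : ℝ) ^ k / 2 := by
    rw [div_pow]
    gcongr
    calc (2 : ℝ) = 2 ^ 1 := by norm_num
      _ ≤ 2 ^ k := pow_le_pow_right₀ (by norm_num) hk
  have h11 : (4 : ℝ) ≤ (J : ℝ) ^ k := by
    calc (4 : ℝ) ≤ J := by exact_mod_cast hJ4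
      _ = (J : ℝ) ^ 1 := (pow_one _).symm
      _ ≤ (J : ℝ) ^ k := pow_le_pow_right₀ (by
          have : (4 : ℝ) ≤ J := by exact_mod_cast hJ4
          linarith) hk
  rw [mul_pow] at h9
  have h12 : (1 / (8 * (k : ℝ))) ^ k / 2 * Real.log N ^ k ≤ (J : ℝ) ^ k / 4 := by
    linarith
  linarith

theorem linear_thr (g : ℕ → ℝ) : ForcesIn Linear g ↔
    ∀ (k : ℕ) (C : ℝ), ∃ᶠ N : ℕ in atTop, C * Real.log N ^ k < Real.sqrt N / g N := by
  constructor
  · intro hF k C hcon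
    simp only [not_lt] at hcon
    obtain ⟨c, hc, hlow⟩ := linear_lower (k + 1) (by omega)
    have hdense : Dense g (dset (fun _ => 4) (fun _ => {0, 1}) (k + 1)) := by
      refine ⟨(|C| + 1) / c, by positivity, ?_⟩
      filter_upwards [hcon, hlow, eventually_ge_atTop 3] with N h1 h2 h3
      have hlog := one_le_log h3
      have h4 : Real.log N ^ k ≤ Real.log N ^ (k + 1) := pow_le_pow_right₀ hlog (by omega)
      have h5 : (0 : ℝ) ≤ Real.log N ^ k := by positivity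
      calc Real.sqrt N / g N ≤ C * Real.log N ^ k := h1
        _ ≤ (|C| + 1) * Real.log N ^ k := by
            gcongr
            linarith [le_abs_self C]
        _ ≤ (|C| + 1) * Real.log N ^ (k + 1) := by gcongr
        _ = (|C| + 1) / c * (c * Real.log N ^ (k + 1)) := by field_simp
        _ ≤ _ := by gcongr
    obtain ⟨n, hn⟩ := hF _ (linear_dset (k + 1) (by omega)) hdense (2 ^ (k + 1))
    have := rep_dset good_four (k := k + 1) (by omega) n
    omega
  · intro h A hA hD K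
    by_contra hcon
    push Not at hcon
    obtain ⟨C, hC, hup⟩ := linear_upper hA hcon
    obtain ⟨C', hC', hD⟩ := hD
    obtain ⟨N, h1, h2, h3⟩ := ((h (Nat.log 2 K) (C' * C)).and_eventually (hup.and hD)).exists
    have : Real.sqrt N / g N ≤ C' * (C * Real.log N ^ Nat.log 2 K) :=
      h3.trans (mul_le_mul_of_nonneg_left h2 hC'.le)
    rw [← mul_assoc] at this
    linarith

end Pool.Agent.Helper76.FX
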